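import Pool.Agent.W960.Alg

/-! SPX-1: Gram determinants and orthogonal projections. -/

set_option autoImplicit false

namespace Pool.Agent.W368

open Pool.Agent.H670R2 Pool.Agent.W960 Module
open scoped RealInnerProductSpace

noncomputable def vE (k : ℕ) (u : List ℤ) : EuclideanSpace ℝ (Fin k) :=
  WithLp.toLp 2 (fun i : Fin k => ((u.getD i 0 : ℤ) : ℝ))

noncomputable def spn (k : ℕ) (S : List (List ℤ)) : Submodule ℝ (EuclideanSpace ℝ (Fin k)) :=
  Submodule.span ℝ {x | ∃ s ∈ S, x = vE k s}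

section gram

variable {E : Type} [NormedAddCommGroup E] [InnerProductSpace ℝ E] [FiniteDimensional ℝ E]

/-- the Gram determinant of a family with one more vector -/
theorem det_gram_sum {m : ℕ} (v : Fin m → E) (w : E) (h : (Matrix.gram ℝ v).det ≠ 0) :
    (Matrix.fromBlocks (Matrix.gram ℝ v) (Matrix.of fun i (_ : Fin 1) => ⟪v i, w⟫)
      (Matrix.of fun (_ : Fin 1) j => ⟪w, v j⟫) (Matrix.of fun (_ _ : Fin 1) => ⟪w, w⟫)).det =
    (Matrix.gram ℝ v).det *
      ‖((Submodule.span ℝ (Set.range v))ᗮ).starProjection w‖ ^ 2 := by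
  classical
  set V := Submodule.span ℝ (Set.range v) with hV
  have := Matrix.invertibleOfIsUnitDet (Matrix.gram ℝ v) (isUnit_iff_ne_zero.2 h)
  rw [Matrix.det_fromBlocks₁₁]
  congr 1
  obtain ⟨c, hc⟩ : ∃ c : Fin m → ℝ, ∑ i, c i • v i = V.starProjection w :=
    (Submodule.mem_span_range_iff_exists_fun ℝ).1 (V.starProjection_apply_mem w)
  have h1 : (Matrix.of fun i (_ : Fin 1) => ⟪v i, w⟫) =
      Matrix.gram ℝ v * (Matrix.of fun i (_ : Fin 1) => c i) := by
    ext i j
    simp only [Matrix.of_apply, Matrix.mul_apply, Matrix.gram_apply]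
    have h2 : ⟪v i, w⟫ = ⟪v i, V.starProjection w⟫ := by
      have h3 := V.starProjection_inner_eq_zero w (v i)
        (Submodule.subset_span (Set.mem_range_self i))
      rw [inner_sub_left, sub_eq_zero] at h3
      rw [real_inner_comm, h3, real_inner_comm]
    rw [h2, ← hc, inner_sum]
    refine Finset.sum_congr rfl fun l _ => ?_
    rw [inner_smul_right, mul_comm]
  rw [h1, Matrix.mul_assoc, Matrix.invOf_mul_cancel_left]
  simp only [Matrix.det_unique, Matrix.sub_apply, Matrix.of_apply, Matrix.mul_apply]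
  have h4 : ∑ j, ⟪w, v j⟫ * c j = ⟪w, V.starProjection w⟫ := by
    rw [← hc, inner_sum]
    refine Finset.sum_congr rfl fun l _ => ?_
    rw [inner_smul_right, mul_comm]
  rw [h4, ← inner_sub_right, Submodule.starProjection_orthogonal_val]
  have h5 := V.starProjection_inner_eq_zero w (V.starProjection w) (V.starProjection_apply_mem w)
  rw [← real_inner_self_eq_norm_sq, inner_sub_left w, real_inner_comm _ (V.starProjection w), h5]
  ring

end gram

theorem dotL_eq (k : ℕ) (u v : List ℤ) (hu : u.length = k) :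
    ((dotL u v : ℤ) : ℝ) = ⟪vE k u, vE k v⟫ := by
  rw [dotL_eq_sum, hu]
  push_cast
  rw [← Fin.sum_univ_eq_sum_range (fun i => ((u.getD i 0 : ℤ) : ℝ) * ((v.getD i 0 : ℤ) : ℝ))]
  simp only [vE, PiLp.inner_apply, RCLike.inner_apply, conj_trivial]
  exact Finset.sum_congr rfl fun i _ => mul_comm _ _

theorem gram_cast (k : ℕ) (S : List (List ℤ)) (hS : ∀ s ∈ S, s.length = k) :
    (gramM S).map (Int.cast : ℤ → ℝ) = Matrix.gram ℝ (fun i => vE k (S.get i)) := by
  ext i j
  simp only [gramM, Matrix.map_apply, Matrix.of_apply, Matrix.gram_apply]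
  exact dotL_eq k _ _ (hS _ (List.get_mem _ _))

theorem gdet_cast (k : ℕ) (S : List (List ℤ)) (hS : ∀ s ∈ S, s.length = k) :
    (gdet S : ℝ) = (Matrix.gram ℝ (fun i => vE k (S.get i))).det := by
  have h1 : (((gramM S).det : ℤ) : ℝ) = (Matrix.gram ℝ (fun i => vE k (S.get i))).det := by
    rw [← gram_cast k S hS]
    exact (Int.castRingHom ℝ).map_det (gramM S)
  have h2 := (Matrix.posSemidef_gram (𝕜 := ℝ) (fun i => vE k (S.get i))).det_nonneg
  rw [← h1] at h2 ⊢
  rw [gdet_eq]
  have h3 : 0 ≤ (gramM S).det := by exact_mod_cast h2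
  rw [Nat.cast_natAbs, abs_of_nonneg h3]

theorem spn_eq (k : ℕ) (S : List (List ℤ)) :
    spn k S = Submodule.span ℝ (Set.range fun i => vE k (S.get i)) := by
  unfold spn
  congr 1
  ext x
  constructor
  · rintro ⟨s, hs, rfl⟩
    obtain ⟨i, rfl⟩ := List.get_of_mem hs
    exact ⟨i, rfl⟩
  · rintro ⟨i, rfl⟩
    exact ⟨_, List.get_mem _ _, rfl⟩

theorem gdet_append (k : ℕ) (S : List (List ℤ)) (w : List ℤ) (hS : ∀ s ∈ S, s.length = k)
    (hw : w.length = k) (h : gdet S ≠ 0) :
    (gdet (S ++ [w]) : ℝ) = gdet S * ‖((spn k S)ᗮ).starProjection (vE k w)‖ ^ 2 := by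
  have hS' : ∀ s ∈ S ++ [w], s.length = k := by
    intro s hs
    rcases List.mem_append.1 hs with h | h
    · exact hS s h
    · rw [List.mem_singleton.1 h, hw]
  have hdet : (Matrix.gram ℝ (fun i => vE k (S.get i))).det ≠ 0 := by
    rw [← gdet_cast k S hS]
    exact_mod_cast h
  rw [gdet_cast k _ hS', gdet_cast k S hS, spn_eq, ← det_gram_sum _ _ hdet]
  have hl : S.length + 1 = (S ++ [w]).length := by simp
  let e : Fin S.length ⊕ Fin 1 ≃ Fin (S ++ [w]).length := finSumFinEquiv.trans (finCongr hl)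
  rw [← Matrix.det_submatrix_equiv_self e]
  congr 1
  have hl1 : ∀ i : Fin S.length, (S ++ [w]).get (e (Sum.inl i)) = S.get i := by
    intro i
    simp [e, List.getElem_append_left]
  have hl2 : ∀ i : Fin 1, (S ++ [w]).get (e (Sum.inr i)) = w := by
    intro i
    have : i = 0 := Subsingleton.elim _ _
    subst this
    simp [e]
  ext i j
  rcases i with i | i <;> rcases j with j | j <;>
    simp only [Matrix.submatrix_apply, Matrix.gram_apply, hl1, hl2, Matrix.fromBlocks_apply₁₁,
      Matrix.fromBlocks_apply₁₂, Matrix.fromBlocks_apply₂₁, Matrix.fromBlocks_apply₂₂,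
      Matrix.of_apply]

theorem gdet_nil : gdet [] ≠ 0 := by
  rw [gdet_eq]
  have : (gramM []).det = 1 := Matrix.det_eq_one_of_card_eq_zero (by simp)
  rw [this]
  decide

theorem spn_append (k : ℕ) (S T : List (List ℤ)) : spn k (S ++ T) = spn k S ⊔ spn k T := by
  unfold spn
  rw [← Submodule.span_union]
  congr 1
  ext x
  simp only [Set.mem_ofPred_eq, List.mem_append, Set.mem_union]
  constructor
  · rintro ⟨s, h | h, rfl⟩
    · exact Or.inl ⟨s, h, rfl⟩
    · exact Or.inr ⟨s, h, rfl⟩
  · rintro (⟨s, h, rfl⟩ | ⟨s, h, rfl⟩)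
    · exact ⟨s, Or.inl h, rfl⟩
    · exact ⟨s, Or.inr h, rfl⟩

theorem sel_aux (k : ℕ) (R : List (List ℤ)) (hR : ∀ r ∈ R, r.length = k) :
    ∀ s : List (List ℤ), gdet s ≠ 0 → (∀ x ∈ s, x.length = k) →
      gdet (R.foldl selStep s) ≠ 0 ∧ (∀ x ∈ R.foldl selStep s, x.length = k) ∧
        spn k (R.foldl selStep s) = spn k s ⊔ spn k R := by
  induction R with
  | nil =>
    intro s h1 h2
    refine ⟨h1, h2, ?_⟩
    have : spn k [] = ⊥ := by simp [spn]
    rw [this, sup_bot_eq]
    rfl
  | cons r R ih =>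
    intro s h1 h2
    rw [List.foldl_cons]
    have hr : r.length = k := hR r (by simp)
    have hR' : ∀ r ∈ R, r.length = k := fun x hx => hR x (by simp [hx])
    have hcons : spn k (r :: R) = spn k [r] ⊔ spn k R := spn_append k [r] R
    by_cases h : gdet (s ++ [r]) = 0
    · have hs : selStep s r = s := by simp [selStep, h]
      rw [hs]
      obtain ⟨a, b, c⟩ := ih hR' s h1 h2
      refine ⟨a, b, ?_⟩
      rw [c, hcons, ← sup_assoc]
      congr 1
      have h3 := gdet_append k s r h2 hr h1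
      rw [h, Nat.cast_zero, eq_comm, mul_eq_zero] at h3
      have h4 : ((spn k s)ᗮ).starProjection (vE k r) = 0 := by
        rcases h3 with h3 | h3
        · exact absurd (by exact_mod_cast h3) h1
        · exact norm_eq_zero.1 (pow_eq_zero_iff two_ne_zero |>.1 h3)
      have h5 : vE k r ∈ spn k s := by
        rw [Submodule.starProjection_orthogonal_val, sub_eq_zero] at h4
        rw [h4]
        exact Submodule.starProjection_apply_mem _ _
      refine le_antisymm le_sup_left (sup_le le_rfl ?_)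
      refine Submodule.span_le.2 ?_
      rintro x ⟨y, hy, rfl⟩
      rw [List.mem_singleton.1 hy]
      exact h5
    · have hs : selStep s r = s ++ [r] := by simp [selStep, h]
      rw [hs]
      obtain ⟨a, b, c⟩ := ih hR' (s ++ [r]) h (by
        intro x hx
        rcases List.mem_append.1 hx with hx | hx
        · exact h2 x hx
        · rw [List.mem_singleton.1 hx, hr])
      refine ⟨a, b, ?_⟩
      rw [c, hcons, spn_append, sup_assoc]

theorem sel_spec (k : ℕ) (R : List (List ℤ)) (hR : ∀ r ∈ R, r.length = k) :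
    gdet (sel R) ≠ 0 ∧ (∀ s ∈ sel R, s.length = k) ∧ spn k (sel R) = spn k R := by
  obtain ⟨a, b, c⟩ := sel_aux k R hR [] gdet_nil (by simp)
  refine ⟨a, b, ?_⟩
  have : spn k [] = ⊥ := by simp [spn]
  rw [this, bot_sup_eq] at c
  exact c

theorem length_eL (k j : ℕ) : (eL k j).length = k := by simp [eL]

theorem vE_eL (k j : ℕ) (hj : j < k) :
    vE k (eL k j) = EuclideanSpace.single (⟨j, hj⟩ : Fin k) (1 : ℝ) := by
  ext i
  simp only [vE, eL]
  rw [List.getD_eq_getElem _ _ (by simp)]
  simp only [List.getElem_map, List.getElem_range, PiLp.single_apply, Fin.ext_iff]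
  split_ifs <;> simp

theorem length_addL (u v : List ℤ) (k : ℕ) (hu : u.length = k) (hv : v.length = k) :
    (addL u v).length = k := by simp [addL, hu, hv]

theorem vE_addL (k : ℕ) (u v : List ℤ) (hu : u.length = k) (hv : v.length = k) :
    vE k (addL u v) = vE k u + vE k v := by
  ext i
  simp only [vE, addL, PiLp.add_apply]
  rw [List.getD_eq_getElem _ _ (by simp [hu, hv]), List.getD_eq_getElem _ _ (by simp [hu]),
    List.getD_eq_getElem _ _ (by simp [hv])]
  simp

theorem projL_spec (k : ℕ) (S : List (List ℤ)) (hS : ∀ s ∈ S, s.length = k) (h : gdet S ≠ 0)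
    (y : List ℤ) (hy : y.length = k) (j : ℕ) (hj : j < k) :
    (((projL S k y).getD j 0 : ℤ) : ℝ) =
      2 * gdet S * (((spn k S)ᗮ).starProjection (vE k y)) ⟨j, hj⟩ := by
  have h1 : (projL S k y).getD j 0 = (gdet (S ++ [addL y (eL k j)]) : ℤ) -
      (gdet (S ++ [y]) : ℤ) - (gdet (S ++ [eL k j]) : ℤ) := by
    unfold projL
    rw [List.getD_eq_getElem _ _ (by simpa using hj)]
    simp
  rw [h1]
  push_cast
  rw [gdet_append k S _ hS (length_addL _ _ k hy (length_eL k j)) h, gdet_append k S _ hS hy h,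
    gdet_append k S _ hS (length_eL k j) h, vE_addL k _ _ hy (length_eL k j), map_add]
  set P := ((spn k S)ᗮ).starProjection with hP
  have h2 : ‖P (vE k y) + P (vE k (eL k j))‖ ^ 2 = ‖P (vE k y)‖ ^ 2 +
      2 * ⟪P (vE k y), P (vE k (eL k j))⟫ + ‖P (vE k (eL k j))‖ ^ 2 :=
    norm_add_sq_real _ _
  have h3 : ⟪P (vE k y), P (vE k (eL k j))⟫ = (P (vE k y)) ⟨j, hj⟩ := by
    have h4 : ⟪P (vE k y), P (vE k (eL k j))⟫ = ⟪P (P (vE k y)), vE k (eL k j)⟫ :=
      (Submodule.starProjection_isSymmetric (K := (spn k S)ᗮ) (P (vE k y)) (vE k (eL k j))).symm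
    have h5 : P (P (vE k y)) = P (vE k y) :=
      Submodule.starProjection_eq_self_iff.2 (Submodule.starProjection_apply_mem _ _)
    rw [h4, h5, vE_eL k j hj, EuclideanSpace.inner_single_right]
    simp
  rw [h2, h3]
  ring

end Pool.Agent.W368
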