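import Pool.Agent.W960.Conv
import Pool.Agent.H528R3.FD.PolyZZ

/-! SPX-5: the functions of the simplex machine are polynomial-time computable. -/

set_option autoImplicit false

namespace Pool.Agent.W368

open Pool.Agent.NPC Pool.Agent.NPC.H670R2 Pool.Agent.H670R2 Pool.Agent.W960

def PolyKs : Prop := ∀ (α : Type) [TEnc α] (R : α → List (List ℤ)) (k i : α → ℕ),
  NPC.Poly R → UPoly k → NPC.Poly i → NPC.Poly (fun a => ks (R a) (k a) (i a))

section basic

variable {α β : Type} [TEnc α] [TEnc β]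

theorem poly_replicate {n : α → ℕ} {x : α → β} (hn : UPoly n) (hx : NPC.Poly x) :
    NPC.Poly (fun a => List.replicate (n a) (x a)) :=
  (NPC.Poly.map (l := fun a => List.replicate (n a) ()) (F := fun a _ => x a) hn
    (hx.comp (NPC.Poly.fst NPC.Poly.id))).congr fun a => by simp

theorem poly_addL {u v : α → List ℤ} (hu : NPC.Poly u) (hv : NPC.Poly v) :
    NPC.Poly (fun a => addL (u a) (v a)) :=
  NPC.Poly.zipWith (F := fun _ x y => x + y) hu hv
    (NPC.Poly.iadd (NPC.Poly.fst (NPC.Poly.snd NPC.Poly.id)) (NPC.Poly.snd (NPC.Poly.snd NPC.Poly.id)))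

theorem poly_smulL {c : α → ℤ} {u : α → List ℤ} (hc : NPC.Poly c) (hu : NPC.Poly u) :
    NPC.Poly (fun a => smulL (c a) (u a)) :=
  NPC.Poly.map (F := fun a x => c a * x) hu
    (NPC.Poly.imul (hc.comp (NPC.Poly.fst NPC.Poly.id)) (NPC.Poly.snd NPC.Poly.id))

theorem poly_negL {u : α → List ℤ} (hu : NPC.Poly u) : NPC.Poly (fun a => negL (u a)) :=
  NPC.Poly.map (F := fun _ x => -x) hu (NPC.Poly.ineg (NPC.Poly.snd NPC.Poly.id))

theorem poly_eL {k j : α → ℕ} (hk : UPoly k) (hj : NPC.Poly j) : NPC.Poly (fun a => eL (k a) (j a)) :=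
  NPC.Poly.map (l := fun a => List.range (k a)) (F := fun a i => if i = j a then (1 : ℤ) else 0)
    hk.range (NPC.Poly.ite (p := fun x : α × ℕ => x.2 = j x.1)
      (NPC.Poly.decide_eq (NPC.Poly.snd NPC.Poly.id) (hj.comp (NPC.Poly.fst NPC.Poly.id)))
      (NPC.Poly.const _) (NPC.Poly.const _))

theorem poly_rowE {L : α → ℕ} {u : α → List ℤ} (hL : UPoly L) (hu : NPC.Poly u) :
    NPC.Poly (fun a => rowE (L a) (u a)) :=
  NPC.Poly.append hu (NPC.Poly.append (poly_negL hu)
    (NPC.Poly.append (poly_replicate hL (NPC.Poly.const 0)) (NPC.Poly.const [0])))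

theorem poly_rowI {L i : α → ℕ} {u : α → List ℤ} (hL : UPoly L) (hu : NPC.Poly u) (hi : NPC.Poly i) :
    NPC.Poly (fun a => rowI (L a) (u a) (i a)) :=
  NPC.Poly.append hu (NPC.Poly.append (poly_negL hu) (NPC.Poly.append (poly_eL hL hi) (NPC.Poly.const [0])))

theorem poly_rowG {L : α → ℕ} {u : α → List ℤ} (hL : UPoly L) (hu : NPC.Poly u) :
    NPC.Poly (fun a => rowG (L a) (u a)) :=
  NPC.Poly.append hu (NPC.Poly.append (poly_negL hu)
    (NPC.Poly.append (poly_replicate hL (NPC.Poly.const 0)) (NPC.Poly.const [-1])))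

theorem poly_hfRows {E K : α → List (List ℤ)} {g : α → List ℤ} (hE : NPC.Poly E) (hK : NPC.Poly K)
    (hg : NPC.Poly g) : NPC.Poly (fun a => hfRows (E a) (K a) (g a)) := by
  have hL : UPoly (fun a => (K a).length) := UPoly.length hK
  refine NPC.Poly.append (NPC.Poly.map (F := fun a u => rowE (K a).length u) hE
    (poly_rowE (hL.comp (NPC.Poly.fst NPC.Poly.id)) (NPC.Poly.snd NPC.Poly.id))) (NPC.Poly.append ?_
      (NPC.Poly.cons (poly_rowG hL hg) (NPC.Poly.const [])))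
  exact NPC.Poly.map (l := fun a => (K a).zipIdx)
    (F := fun a (p : List ℤ × ℕ) => rowI (K a).length p.1 p.2) (NPC.Poly.zipIdx hK)
    (poly_rowI (hL.comp (NPC.Poly.fst NPC.Poly.id)) (NPC.Poly.fst (NPC.Poly.snd NPC.Poly.id))
      (NPC.Poly.snd (NPC.Poly.snd NPC.Poly.id)))

theorem poly_diffL {n : α → ℕ} {x : α → List ℤ} (hn : UPoly n) (hx : NPC.Poly x) :
    NPC.Poly (fun a => diffL (n a) (x a)) :=
  NPC.Poly.map (l := fun a => List.range (n a))
    (F := fun a j => (x a).getD j 0 - (x a).getD (n a + j) 0) hn.range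
    (NPC.Poly.isub (NPC.Poly.getD (hx.comp (NPC.Poly.fst NPC.Poly.id)) (NPC.Poly.snd NPC.Poly.id) (NPC.Poly.const 0))
      (NPC.Poly.getD (hx.comp (NPC.Poly.fst NPC.Poly.id))
        (NPC.Poly.add (hn.toPoly.comp (NPC.Poly.fst NPC.Poly.id)) (NPC.Poly.snd NPC.Poly.id)) (NPC.Poly.const 0)))

theorem poly_row {H : α → List (List ℤ)} {i : α → ℕ} (hH : NPC.Poly H) (hi : NPC.Poly i) :
    NPC.Poly (fun a => row (H a) (i a)) := NPC.Poly.getD hH hi (NPC.Poly.const [])

theorem poly_rows {H : α → List (List ℤ)} {T : α → List ℕ} (hH : NPC.Poly H) (hT : NPC.Poly T) :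
    NPC.Poly (fun a => (T a).map (row (H a))) :=
  NPC.Poly.map (F := fun a i => row (H a) i) hT
    (poly_row (hH.comp (NPC.Poly.fst NPC.Poly.id)) (NPC.Poly.snd NPC.Poly.id))

theorem poly_eT {g : α → List ℤ} (hg : NPC.Poly g) : NPC.Poly (fun a => eT (g a)) :=
  poly_eL (UPoly.length hg) (NPC.Poly.sub (NPC.Poly.length hg) (NPC.Poly.const 1))

theorem poly_tightF {H : α → List (List ℤ)} {p : α → List ℤ} {i : α → ℕ} (hH : NPC.Poly H)
    (hp : NPC.Poly p) (hi : NPC.Poly i) : NPC.Poly (fun a => tightF (H a) (p a) (i a)) :=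
  NPC.Poly.decide_eq (poly_dotL (poly_row hH hi) hp) (NPC.Poly.const 0)

theorem poly_tights {H : α → List (List ℤ)} {p : α → List ℤ} {K : α → List ℕ} (hH : NPC.Poly H)
    (hp : NPC.Poly p) (hK : NPC.Poly K) : NPC.Poly (fun a => (K a).filter (tightF (H a) (p a))) :=
  NPC.Poly.filter (p := fun a i => tightF (H a) (p a) i) hK
    (poly_tightF (hH.comp (NPC.Poly.fst NPC.Poly.id)) (hp.comp (NPC.Poly.fst NPC.Poly.id)) (NPC.Poly.snd NPC.Poly.id))

theorem poly_ext0 {n : α → ℕ} {u : α → List ℤ} (hn : UPoly n) (hu : NPC.Poly u) :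
    NPC.Poly (fun a => ext0 (n a) (u a)) :=
  NPC.Poly.append hu (poly_replicate hn (NPC.Poly.const 0))

theorem poly_exts {H : α → List (List ℤ)} {n : α → ℕ} {T : α → List ℕ} (hH : NPC.Poly H)
    (hn : UPoly n) (hT : NPC.Poly T) :
    NPC.Poly (fun a => (T a).map (fun i => ext0 (n a) (row (H a) i))) :=
  NPC.Poly.map (F := fun a i => ext0 (n a) (row (H a) i)) hT
    (poly_ext0 (hn.comp (NPC.Poly.fst NPC.Poly.id))
      (poly_row (hH.comp (NPC.Poly.fst NPC.Poly.id)) (NPC.Poly.snd NPC.Poly.id)))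

theorem poly_dualRows {R : α → List (List ℤ)} {g : α → List ℤ} (hR : NPC.Poly R) (hg : NPC.Poly g) :
    NPC.Poly (fun a => dualRows (R a) (g a)) := by
  have hn : UPoly (fun a => (g a).length - 1) :=
    UPoly.of_le (NPC.Poly.sub (NPC.Poly.length hg) (NPC.Poly.const 1)) (UPoly.length hg)
      fun a => Nat.sub_le _ _
  refine NPC.Poly.map (l := fun a => List.range ((g a).length - 1))
    (F := fun a q => smulL (-((g a).getD q 0)) (eT (g a)) ++ (R a).map fun r => r.getD q 0)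
    hn.range (NPC.Poly.append (poly_smulL (NPC.Poly.ineg (NPC.Poly.getD (hg.comp (NPC.Poly.fst NPC.Poly.id))
      (NPC.Poly.snd NPC.Poly.id) (NPC.Poly.const 0))) (poly_eT (hg.comp (NPC.Poly.fst NPC.Poly.id)))) ?_)
  exact NPC.Poly.map (l := fun x : α × ℕ => R x.1) (F := fun x r => r.getD x.2 0)
    (hR.comp (NPC.Poly.fst NPC.Poly.id))
    (NPC.Poly.getD (NPC.Poly.snd NPC.Poly.id) (NPC.Poly.snd (NPC.Poly.fst NPC.Poly.id)) (NPC.Poly.const 0))

theorem poly_posRows {n e k : α → ℕ} (hn : UPoly n) (he : UPoly e) (hk : UPoly k) :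
    NPC.Poly (fun a => posRows (n a) (e a) (k a)) := by
  have e1 : UPoly (fun x : α × ℕ => n x.1) := hn.comp (NPC.Poly.fst NPC.Poly.id)
  have e2 : UPoly (fun x : α × ℕ => e x.1 + k x.1) :=
    (UPoly.add he hk).comp (NPC.Poly.fst NPC.Poly.id)
  have e3 : NPC.Poly (fun x : α × ℕ => e x.1 + x.2) :=
    NPC.Poly.add (he.toPoly.comp (NPC.Poly.fst NPC.Poly.id)) (NPC.Poly.snd NPC.Poly.id)
  have e4 : NPC.Poly (fun x : α × ℕ => smulL (-1) (eL (e x.1 + k x.1) (e x.1 + x.2))) :=
    poly_smulL (c := fun _ => -1) (NPC.Poly.const (-1)) (poly_eL e2 e3)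
  have e5 : NPC.Poly (fun x : α × ℕ => List.replicate (n x.1) (0 : ℤ)) :=
    poly_replicate (x := fun _ => 0) e1 (NPC.Poly.const 0)
  exact NPC.Poly.map (l := fun a => List.range (k a))
    (F := fun a l => List.replicate (n a) 0 ++ smulL (-1) (eL (e a + k a) (e a + l))) hk.range
    (NPC.Poly.append e5 e4)

theorem poly_gapRow {R : α → List (List ℤ)} {g : α → List ℤ} (hR : NPC.Poly R) (hg : NPC.Poly g) :
    NPC.Poly (fun a => gapRow (R a) (g a)) :=
  NPC.Poly.append hg (NPC.Poly.map (F := fun a r => r.getD ((g a).length - 1) 0) hR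
    (NPC.Poly.getD (NPC.Poly.snd NPC.Poly.id)
      (NPC.Poly.sub (NPC.Poly.length (hg.comp (NPC.Poly.fst NPC.Poly.id))) (NPC.Poly.const 1)) (NPC.Poly.const 0)))

theorem poly_erase {K : α → List ℕ} {i : α → ℕ} (hK : NPC.Poly K) (hi : NPC.Poly i) :
    NPC.Poly (fun a => (K a).filter fun l => decide (l ≠ i a)) :=
  NPC.Poly.filter (p := fun a l => decide (l ≠ i a)) hK
    (NPC.Poly.decide_not (p := fun x : α × ℕ => x.2 = i x.1)
      (NPC.Poly.decide_eq (NPC.Poly.snd NPC.Poly.id) (hi.comp (NPC.Poly.fst NPC.Poly.id))))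

theorem poly_limF {H : α → List (List ℤ)} {d : α → List ℤ} {M : α → List ℕ} (hH : NPC.Poly H)
    (hd : NPC.Poly d) (hM : NPC.Poly M) : NPC.Poly (fun a => limF (H a) (d a) (M a)) :=
  NPC.Poly.filter (p := fun a j => decide (0 < dotL (row (H a) j) (d a))) hM
    (NPC.Poly.ilt (NPC.Poly.const 0) (poly_dotL (poly_row (hH.comp (NPC.Poly.fst NPC.Poly.id)) (NPC.Poly.snd NPC.Poly.id))
      (hd.comp (NPC.Poly.fst NPC.Poly.id))))

theorem poly_find? {l : α → List β} {p : α → β → Bool} (hl : NPC.Poly l)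
    (hp : NPC.Poly (fun x : α × β => p x.1 x.2)) : NPC.Poly (fun a => (l a).find? (p a)) :=
  (NPC.Poly.head? (NPC.Poly.filter hl hp)).congr fun a => by rw [List.head?_filter]

theorem poly_argm {H : α → List (List ℤ)} {p d : α → List ℤ} {M : α → List ℕ} (hH : NPC.Poly H)
    (hp : NPC.Poly p) (hd : NPC.Poly d) (hM : NPC.Poly M) : NPC.Poly (fun a => argm (H a) (p a) (d a) (M a)) := by
  refine poly_find? (p := fun a j => (limF (H a) (d a) (M a)).all fun l =>
    decide (-(dotL (row (H a) j) (p a)) * dotL (row (H a) l) (d a) ≤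
      -(dotL (row (H a) l) (p a)) * dotL (row (H a) j) (d a))) (poly_limF hH hd hM) ?_
  refine NPC.Poly.all (l := fun x : α × ℕ => limF (H x.1) (d x.1) (M x.1))
    (p := fun x l => decide (-(dotL (row (H x.1) x.2) (p x.1)) * dotL (row (H x.1) l) (d x.1) ≤
      -(dotL (row (H x.1) l) (p x.1)) * dotL (row (H x.1) x.2) (d x.1)))
    ((poly_limF hH hd hM).comp (NPC.Poly.fst NPC.Poly.id)) ?_
  have e1 : NPC.Poly (fun x : (α × ℕ) × ℕ => H x.1.1) := hH.comp (NPC.Poly.fst (NPC.Poly.fst NPC.Poly.id))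
  have e2 : NPC.Poly (fun x : (α × ℕ) × ℕ => p x.1.1) := hp.comp (NPC.Poly.fst (NPC.Poly.fst NPC.Poly.id))
  have e3 : NPC.Poly (fun x : (α × ℕ) × ℕ => d x.1.1) := hd.comp (NPC.Poly.fst (NPC.Poly.fst NPC.Poly.id))
  have e4 : NPC.Poly (fun x : (α × ℕ) × ℕ => x.1.2) := NPC.Poly.snd (NPC.Poly.fst NPC.Poly.id)
  have e5 : NPC.Poly (fun x : (α × ℕ) × ℕ => x.2) := NPC.Poly.snd NPC.Poly.id
  exact NPC.Poly.ile (NPC.Poly.imul (NPC.Poly.ineg (poly_dotL (poly_row e1 e4) e2))
      (poly_dotL (poly_row e1 e5) e3))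
    (NPC.Poly.imul (NPC.Poly.ineg (poly_dotL (poly_row e1 e5) e2)) (poly_dotL (poly_row e1 e4) e3))

theorem poly_anyTight {H : α → List (List ℤ)} {p : α → List ℤ} {L : α → List ℕ}
    (hH : NPC.Poly H) (hp : NPC.Poly p) (hL : NPC.Poly L) :
    NPC.Poly (fun a => (L a).any (tightF (H a) (p a))) :=
  NPC.Poly.any (p := fun a i => tightF (H a) (p a) i) hL
    (poly_tightF (hH.comp (NPC.Poly.fst NPC.Poly.id)) (hp.comp (NPC.Poly.fst NPC.Poly.id))
      (NPC.Poly.snd NPC.Poly.id))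

theorem poly_item {k i : α → ℕ} {E K W : α → List ℕ} (hk : NPC.Poly k) (hE : NPC.Poly E)
    (hK : NPC.Poly K) (hW : NPC.Poly W) (hi : NPC.Poly i) :
    NPC.Poly (fun a => ((k a, E a, K a, W a, i a) : Item)) :=
  NPC.Poly.pair hk (NPC.Poly.pair hE (NPC.Poly.pair hK (NPC.Poly.pair hW hi)))

end basic

section fns

variable (hks : PolyKs) {α : Type} [TEnc α]

include hks

theorem poly_HF {E K : α → List (List ℤ)} {g : α → List ℤ} (hE : NPC.Poly E) (hK : NPC.Poly K)
    (hg : NPC.Poly g) : NPC.Poly (fun a => HF (E a) (K a) (g a)) := by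
  have h2 : UPoly (fun a => 2 * (g a).length + (K a).length) :=
    UPoly.add (UPoly.mul (UPoly.const 2) (UPoly.length hg)) (UPoly.length hK)
  exact NPC.Poly.optMap (f := fun a x => diffL (g a).length x)
    (hks α _ _ _ (poly_hfRows hE hK hg) (UPoly.add h2 (UPoly.const 1)) h2.toPoly)
    (poly_diffL ((UPoly.length hg).comp (NPC.Poly.fst NPC.Poly.id)) (NPC.Poly.snd NPC.Poly.id))

theorem poly_canon {H : α → List (List ℤ)} {g p : α → List ℤ} (hH : NPC.Poly H)
    (hg : NPC.Poly g) (hp : NPC.Poly p) : NPC.Poly (fun a => canon (H a) (g a) (p a)) :=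
  poly_HF hks (poly_rows hH (poly_tights hH hp (NPC.Poly.range_length hH))) (NPC.Poly.const [])
    (poly_eT hg)

theorem poly_canonT {H : α → List (List ℤ)} {g : α → List ℤ} {T : α → List ℕ}
    (hH : NPC.Poly H) (hg : NPC.Poly g) (hT : NPC.Poly T) :
    NPC.Poly (fun a => HF ((T a).map (row (H a))) [] (eT (g a))) :=
  poly_HF hks (poly_rows hH hT) (NPC.Poly.const []) (poly_eT hg)

theorem poly_feasF {H : α → List (List ℤ)} {g : α → List ℤ} {E K : α → List ℕ}
    (hH : NPC.Poly H) (hg : NPC.Poly g) (hE : NPC.Poly E) (hK : NPC.Poly K) :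
    NPC.Poly (fun a => feasF (H a) (g a) (E a) (K a)) :=
  NPC.Poly.isSome (poly_HF hks (poly_rows hH hE) (poly_rows hH hK) (poly_eT hg))

theorem poly_dirT {H : α → List (List ℤ)} {g p : α → List ℤ} {T K : α → List ℕ}
    (hH : NPC.Poly H) (hg : NPC.Poly g) (hT : NPC.Poly T) (hK : NPC.Poly K) (hp : NPC.Poly p) :
    NPC.Poly (fun a => dirT (H a) (g a) (T a) (K a) (p a)) :=
  poly_HF hks (NPC.Poly.cons (poly_eT hg) (poly_rows hH hT))
    (poly_rows hH (poly_tights hH hp hK)) hg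

theorem poly_topF {H : α → List (List ℤ)} {g p : α → List ℤ} {E K : α → List ℕ}
    (hH : NPC.Poly H) (hg : NPC.Poly g) (hE : NPC.Poly E) (hK : NPC.Poly K) (hp : NPC.Poly p) :
    NPC.Poly (fun a => topF (H a) (g a) (E a) (K a) (p a)) :=
  (NPC.Poly.not (NPC.Poly.isSome (poly_dirT hks hH hg hE hK hp))).congr fun a => by
    unfold topF
    cases dirT (H a) (g a) (E a) (K a) (p a) <;> rfl

theorem poly_cmpHF {H : α → List (List ℤ)} {g : α → List ℤ} {E K E' K' : α → List ℕ}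
    {b : α → Bool} (hH : NPC.Poly H) (hg : NPC.Poly g) (hE : NPC.Poly E) (hK : NPC.Poly K)
    (hE' : NPC.Poly E') (hK' : NPC.Poly K') (hb : NPC.Poly b) :
    NPC.Poly (fun a => cmpHF (H a) (g a) (E a) (K a) (E' a) (K' a) (b a)) := by
  have hR : NPC.Poly (fun a => (E a ++ K a).map (row (H a))) :=
    poly_rows hH (NPC.Poly.append hE hK)
  have hL : UPoly (fun a => ((E a ++ K a).map (row (H a))).length) := UPoly.length hR
  have hx : NPC.Poly (fun a => ext0 ((E a ++ K a).map (row (H a))).length (eT (g a))) :=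
    poly_ext0 hL (poly_eT hg)
  have hy : NPC.Poly (fun a => gapRow ((E a ++ K a).map (row (H a))) (g a)) := poly_gapRow hR hg
  have h1 : NPC.Poly (fun a => (E' a).map (fun i => ext0 ((E a ++ K a).map (row (H a))).length
      (row (H a) i)) ++ dualRows ((E a ++ K a).map (row (H a))) (g a)) :=
    NPC.Poly.append (poly_exts hH hL hE') (poly_dualRows hR hg)
  have h2 : NPC.Poly (fun a => smulL (-1) (ext0 ((E a ++ K a).map (row (H a))).length
      (eT (g a)))) := poly_smulL (c := fun _ => -1) (NPC.Poly.const (-1)) hx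
  have h3 : NPC.Poly (fun a => smulL (-1) (gapRow ((E a ++ K a).map (row (H a))) (g a))) :=
    poly_smulL (c := fun _ => -1) (NPC.Poly.const (-1)) hy
  have h4 : NPC.Poly (fun a => (K' a).map (fun i => ext0 ((E a ++ K a).map (row (H a))).length
      (row (H a) i)) ++ posRows (g a).length (E a).length (K a).length) :=
    NPC.Poly.append (poly_exts hH hL hK')
      (poly_posRows (UPoly.length hg) (UPoly.length hE) (UPoly.length hK))
  have h5 : NPC.Poly (fun a => if b a = true then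
      ext0 ((E a ++ K a).map (row (H a))).length (eT (g a)) else
      gapRow ((E a ++ K a).map (row (H a))) (g a)) :=
    NPC.Poly.ite (p := fun a => b a = true) (NPC.Poly.decide_bool hb) hx hy
  exact NPC.Poly.isSome (poly_HF hks h1 (NPC.Poly.cons h2 (NPC.Poly.cons h3 h4)) h5)

theorem poly_lessF {H : α → List (List ℤ)} {g : α → List ℤ} {E K E' K' : α → List ℕ}
    (hH : NPC.Poly H) (hg : NPC.Poly g) (hE : NPC.Poly E) (hK : NPC.Poly K)
    (hE' : NPC.Poly E') (hK' : NPC.Poly K') :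
    NPC.Poly (fun a => lessF (H a) (g a) (E a) (K a) (E' a) (K' a)) :=
  NPC.Poly.and (poly_feasF hks hH hg hE' hK') (NPC.Poly.or
    (NPC.Poly.not (poly_feasF hks hH hg hE hK))
    (NPC.Poly.and (poly_cmpHF hks (b := fun _ => true) hH hg hE hK hE' hK' (NPC.Poly.const true))
      (poly_cmpHF hks (b := fun _ => false) hH hg hE hK hE' hK' (NPC.Poly.const false))))

theorem poly_ltF {H : α → List (List ℤ)} {g : α → List ℤ} {E K : α → List ℕ} {i j : α → ℕ}
    (hH : NPC.Poly H) (hg : NPC.Poly g) (hE : NPC.Poly E) (hK : NPC.Poly K)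
    (hi : NPC.Poly i) (hj : NPC.Poly j) :
    NPC.Poly (fun a => ltF (H a) (g a) (E a) (K a) (i a) (j a)) :=
  poly_lessF hks hH hg (NPC.Poly.cons hi hE) (poly_erase hK hi) (NPC.Poly.cons hj hE)
    (poly_erase hK hj)

theorem poly_greedy {H : α → List (List ℤ)} {g p : α → List ℤ} {E K : α → List ℕ}
    (hH : NPC.Poly H) (hg : NPC.Poly g) (hE : NPC.Poly E) (hK : NPC.Poly K) (hp : NPC.Poly p) :
    NPC.Poly (fun a => greedy (H a) (g a) (E a) (K a) (p a)) := by
  have hl := poly_tights hH hp hK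
  obtain ⟨q, hq⟩ := hl.sz_le
  obtain ⟨r, hr⟩ := hE.sz_le
  have e0 : NPC.Poly (fun x : α × List ℕ × ℕ => x.2.2 :: x.2.1) :=
    NPC.Poly.cons (NPC.Poly.snd (NPC.Poly.snd NPC.Poly.id))
      (NPC.Poly.fst (NPC.Poly.snd NPC.Poly.id))
  have e1 : NPC.Poly (fun x : α × List ℕ × ℕ => (dirT (H x.1) (g x.1) (x.2.2 :: x.2.1) (K x.1)
      (p x.1)).isSome) :=
    NPC.Poly.isSome (poly_dirT hks (hH.comp (NPC.Poly.fst NPC.Poly.id))
      (hg.comp (NPC.Poly.fst NPC.Poly.id)) e0 (hK.comp (NPC.Poly.fst NPC.Poly.id))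
      (hp.comp (NPC.Poly.fst NPC.Poly.id)))
  have e2 : NPC.Poly (fun x : α × List ℕ × ℕ => if (dirT (H x.1) (g x.1) (x.2.2 :: x.2.1) (K x.1)
      (p x.1)).isSome = true then x.2.2 :: x.2.1 else x.2.1) :=
    NPC.Poly.ite (NPC.Poly.decide_bool e1) e0 (NPC.Poly.fst (NPC.Poly.snd NPC.Poly.id))
  have key : ∀ (c : List ℕ → ℕ → Prop) [∀ T i, Decidable (c T i)] (l T : List ℕ),
      sz (l.foldl (fun T i => if c T i then i :: T else T) T) ≤ sz l + sz T := by
    intro c _ l
    induction l with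
    | nil => intro T; simp
    | cons i l ih =>
      intro T
      rw [List.foldl_cons]
      refine (ih _).trans ?_
      split_ifs
      · simp only [sz_list_cons]; omega
      · simp only [sz_list_cons]; omega
  refine NPC.Poly.foldl (l := fun a => (K a).filter (tightF (H a) (p a))) (s := E)
    (F := fun a T i => if (dirT (H a) (g a) (i :: T) (K a) (p a)).isSome = true then i :: T else T)
    hl hE e2 (q + r) fun a k _ => ?_
  refine (key _ _ _).trans ?_
  have h1 := NPC.Poly.sz_take_le ((K a).filter (tightF (H a) (p a))) k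
  have h2 := hq a
  have h3 := hr a
  rw [Polynomial.eval_add]
  omega

theorem poly_moveF {H : α → List (List ℤ)} {g p : α → List ℤ} {E K W : α → List ℕ}
    (hH : NPC.Poly H) (hg : NPC.Poly g) (hE : NPC.Poly E) (hK : NPC.Poly K) (hW : NPC.Poly W)
    (hp : NPC.Poly p) : NPC.Poly (fun a => moveF (H a) (g a) (E a) (K a) (W a) (p a)) := by
  have h1 : NPC.Poly (fun a => dirT (H a) (g a) (greedy (H a) (g a) (E a) (K a) (p a)) (K a)
      (p a)) := poly_dirT hks hH hg (poly_greedy hks hH hg hE hK hp) hK hp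
  have h2 : NPC.Poly (fun x : α × List ℤ => argm (H x.1) (p x.1) x.2 (K x.1 ++ W x.1)) :=
    poly_argm (hH.comp (NPC.Poly.fst NPC.Poly.id)) (hp.comp (NPC.Poly.fst NPC.Poly.id))
      (NPC.Poly.snd NPC.Poly.id) ((NPC.Poly.append hK hW).comp (NPC.Poly.fst NPC.Poly.id))
  have e1 : NPC.Poly (fun y : (α × List ℤ) × ℕ => H y.1.1) :=
    hH.comp (NPC.Poly.fst (NPC.Poly.fst NPC.Poly.id))
  have e2 : NPC.Poly (fun y : (α × List ℤ) × ℕ => g y.1.1) :=
    hg.comp (NPC.Poly.fst (NPC.Poly.fst NPC.Poly.id))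
  have e3 : NPC.Poly (fun y : (α × List ℤ) × ℕ => p y.1.1) :=
    hp.comp (NPC.Poly.fst (NPC.Poly.fst NPC.Poly.id))
  have e4 : NPC.Poly (fun y : (α × List ℤ) × ℕ => y.1.2) :=
    NPC.Poly.snd (NPC.Poly.fst NPC.Poly.id)
  have e5 : NPC.Poly (fun y : (α × List ℤ) × ℕ => y.2) := NPC.Poly.snd NPC.Poly.id
  have e6 : NPC.Poly (fun y : (α × List ℤ) × ℕ => dotL (row (H y.1.1) y.2) y.1.2) :=
    poly_dotL (poly_row e1 e5) e4
  have e7 : NPC.Poly (fun y : (α × List ℤ) × ℕ => -(dotL (row (H y.1.1) y.2) (p y.1.1))) :=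
    NPC.Poly.ineg (poly_dotL (poly_row e1 e5) e3)
  have h3 : NPC.Poly (fun y : (α × List ℤ) × ℕ => canon (H y.1.1) (g y.1.1)
      (addL (smulL (dotL (row (H y.1.1) y.2) y.1.2) (p y.1.1))
        (smulL (-(dotL (row (H y.1.1) y.2) (p y.1.1))) y.1.2))) :=
    poly_canon hks e1 e2 (poly_addL (poly_smulL e6 e3) (poly_smulL e7 e4))
  have h4 : NPC.Poly (fun x : α × List ℤ =>
      match argm (H x.1) (p x.1) x.2 (K x.1 ++ W x.1) with
      | none => none
      | some j => canon (H x.1) (g x.1)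
          (addL (smulL (dotL (row (H x.1) j) x.2) (p x.1))
            (smulL (-(dotL (row (H x.1) j) (p x.1))) x.2))) :=
    (NPC.Poly.optCases (g := fun _ => (none : Option (List ℤ)))
      (h := fun (x : α × List ℤ) j => canon (H x.1) (g x.1)
          (addL (smulL (dotL (row (H x.1) j) x.2) (p x.1))
            (smulL (-(dotL (row (H x.1) j) (p x.1))) x.2))) h2 (NPC.Poly.const none)
            h3).congr fun x => by
      cases argm (H x.1) (p x.1) x.2 (K x.1 ++ W x.1) <;> rfl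
  refine (NPC.Poly.optCases (g := fun _ => (none : Option (List ℤ)))
    (h := fun a d => match argm (H a) (p a) d (K a ++ W a) with
      | none => none
      | some j => canon (H a) (g a)
          (addL (smulL (dotL (row (H a) j) d) (p a))
            (smulL (-(dotL (row (H a) j) (p a))) d))) h1 (NPC.Poly.const none) h4).congr
            fun a => ?_
  unfold moveF
  cases dirT (H a) (g a) (greedy (H a) (g a) (E a) (K a) (p a)) (K a) (p a) with
  | none => rfl
  | some d =>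
    change _ = match argm (H a) (p a) d (K a ++ W a) with
      | none => none
      | some j => canon (H a) (g a) (addL (smulL (dotL (row (H a) j) d) (p a))
          (smulL (-(dotL (row (H a) j) (p a))) d))
    change (match argm (H a) (p a) d (K a ++ W a) with
      | none => none
      | some j => canon (H a) (g a) (addL (smulL (dotL (row (H a) j) d) (p a))
          (smulL (-(dotL (row (H a) j) (p a))) d))) = _
    rfl

theorem poly_isUp {H : α → List (List ℤ)} {g : α → List ℤ} {E K : α → List ℕ} {i : α → ℕ}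
    (hH : NPC.Poly H) (hg : NPC.Poly g) (hE : NPC.Poly E) (hK : NPC.Poly K) (hi : NPC.Poly i) :
    NPC.Poly (fun a => isUp (fns (H a) (g a)) (E a) (K a) (i a)) := by
  have h1 : NPC.Poly (fun a => (K a).filter fun j => ltF (H a) (g a) (E a) (K a) (i a) j) :=
    NPC.Poly.filter (p := fun a j => ltF (H a) (g a) (E a) (K a) (i a) j) hK
      (poly_ltF hks (hH.comp (NPC.Poly.fst NPC.Poly.id)) (hg.comp (NPC.Poly.fst NPC.Poly.id))
        (hE.comp (NPC.Poly.fst NPC.Poly.id)) (hK.comp (NPC.Poly.fst NPC.Poly.id))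
        (hi.comp (NPC.Poly.fst NPC.Poly.id)) (NPC.Poly.snd NPC.Poly.id))
  exact NPC.Poly.decide_le (NPC.Poly.mul (NPC.Poly.const 2) (NPC.Poly.length h1))
    (NPC.Poly.length hK)

theorem poly_ups {H : α → List (List ℤ)} {g : α → List ℤ} {E K : α → List ℕ}
    (hH : NPC.Poly H) (hg : NPC.Poly g) (hE : NPC.Poly E) (hK : NPC.Poly K) :
    NPC.Poly (fun a => (K a).filter (isUp (fns (H a) (g a)) (E a) (K a))) :=
  NPC.Poly.filter (p := fun a i => isUp (fns (H a) (g a)) (E a) (K a) i) hK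
    (poly_isUp hks (hH.comp (NPC.Poly.fst NPC.Poly.id)) (hg.comp (NPC.Poly.fst NPC.Poly.id))
      (hE.comp (NPC.Poly.fst NPC.Poly.id)) (hK.comp (NPC.Poly.fst NPC.Poly.id))
      (NPC.Poly.snd NPC.Poly.id))

theorem poly_downs {H : α → List (List ℤ)} {g : α → List ℤ} {E K : α → List ℕ}
    (hH : NPC.Poly H) (hg : NPC.Poly g) (hE : NPC.Poly E) (hK : NPC.Poly K) :
    NPC.Poly (fun a => (K a).filter (fun i => !isUp (fns (H a) (g a)) (E a) (K a) i)) :=
  NPC.Poly.filter (p := fun a i => !isUp (fns (H a) (g a)) (E a) (K a) i) hK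
    (NPC.Poly.not (poly_isUp hks (hH.comp (NPC.Poly.fst NPC.Poly.id))
      (hg.comp (NPC.Poly.fst NPC.Poly.id)) (hE.comp (NPC.Poly.fst NPC.Poly.id))
      (hK.comp (NPC.Poly.fst NPC.Poly.id)) (NPC.Poly.snd NPC.Poly.id)))

theorem poly_callStep {H : α → List (List ℤ)} {g p : α → List ℤ} {ps : α → List (List ℤ)}
    {E K W : α → List ℕ} {s : α → List Item}
    (hH : NPC.Poly H) (hg : NPC.Poly g) (hp : NPC.Poly p) (hps : NPC.Poly ps)
    (hE : NPC.Poly E) (hK : NPC.Poly K) (hW : NPC.Poly W) (hs : NPC.Poly s) :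
    NPC.Poly (fun a => callStep (fns (H a) (g a)) (p a) (ps a) (E a) (K a) (W a) (s a)) := by
  have e1 : NPC.Poly (fun a => p a :: ps a) := NPC.Poly.cons hp hps
  have e2 := poly_ups hks hH hg hE hK
  have e3 := poly_downs hks hH hg hE hK
  have e4 : NPC.Poly (fun a => topF (H a) (g a) (E a) (K a) (p a)) :=
    poly_topF hks hH hg hE hK hp
  have e5 := poly_anyTight hH hp e2
  have e6 : NPC.Poly (fun a => ((1, E a, K a, W a, 0) : Item) :: s a) :=
    NPC.Poly.cons (poly_item (NPC.Poly.const 1) hE hK hW (NPC.Poly.const 0)) hs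
  have e7 : NPC.Poly (fun a => ((0, E a,
      (K a).filter (fun i => !isUp (fns (H a) (g a)) (E a) (K a) i),
      W a ++ (K a).filter (isUp (fns (H a) (g a)) (E a) (K a)), 0) : Item) ::
        ((1, E a, K a, W a, 0) : Item) :: s a) :=
    NPC.Poly.cons (poly_item (NPC.Poly.const 0) hE e3 (NPC.Poly.append hW e2)
      (NPC.Poly.const 0)) e6
  exact NPC.Poly.ite (NPC.Poly.decide_bool e4) (NPC.Poly.pair e1 hs)
    (NPC.Poly.ite (NPC.Poly.decide_bool e5) (NPC.Poly.pair e1 e6) (NPC.Poly.pair e1 e7))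

theorem poly_midStep {H : α → List (List ℤ)} {g p : α → List ℤ} {ps : α → List (List ℤ)}
    {E K W : α → List ℕ} {s : α → List Item}
    (hH : NPC.Poly H) (hg : NPC.Poly g) (hp : NPC.Poly p) (hps : NPC.Poly ps)
    (hE : NPC.Poly E) (hK : NPC.Poly K) (hW : NPC.Poly W) (hs : NPC.Poly s) :
    NPC.Poly (fun a => midStep (fns (H a) (g a)) (p a) (ps a) (E a) (K a) (W a) (s a)) := by
  have e1 : NPC.Poly (fun a => p a :: ps a) := NPC.Poly.cons hp hps
  have e2 := poly_ups hks hH hg hE hK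
  have e3 : NPC.Poly (fun a => ((K a).filter (isUp (fns (H a) (g a)) (E a) (K a))).find?
      (tightF (H a) (p a))) :=
    poly_find? (p := fun a i => tightF (H a) (p a) i) e2
      (poly_tightF (hH.comp (NPC.Poly.fst NPC.Poly.id)) (hp.comp (NPC.Poly.fst NPC.Poly.id))
        (NPC.Poly.snd NPC.Poly.id))
  have e4 := poly_anyTight hH hp hW
  have e5 : NPC.Poly (fun x : α × ℕ => (p x.1 :: ps x.1,
      ((0, x.2 :: E x.1, (K x.1).filter (fun j => decide (j ≠ x.2)), W x.1, 0) : Item) ::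
        ((2, E x.1, K x.1, W x.1, x.2) : Item) :: s x.1)) :=
    NPC.Poly.pair (e1.comp (NPC.Poly.fst NPC.Poly.id)) (NPC.Poly.cons
      (poly_item (NPC.Poly.const 0)
        (NPC.Poly.cons (NPC.Poly.snd NPC.Poly.id) (hE.comp (NPC.Poly.fst NPC.Poly.id)))
        (poly_erase (hK.comp (NPC.Poly.fst NPC.Poly.id)) (NPC.Poly.snd NPC.Poly.id))
        (hW.comp (NPC.Poly.fst NPC.Poly.id)) (NPC.Poly.const 0))
      (NPC.Poly.cons (poly_item (NPC.Poly.const 2) (hE.comp (NPC.Poly.fst NPC.Poly.id))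
        (hK.comp (NPC.Poly.fst NPC.Poly.id)) (hW.comp (NPC.Poly.fst NPC.Poly.id))
        (NPC.Poly.snd NPC.Poly.id)) (hs.comp (NPC.Poly.fst NPC.Poly.id))))
  have e6 := NPC.Poly.optCases (g := fun a => (p a :: ps a, s a))
    (h := fun a i => (p a :: ps a,
      ((0, i :: E a, (K a).filter (fun j => decide (j ≠ i)), W a, 0) : Item) ::
        ((2, E a, K a, W a, i) : Item) :: s a)) e3 (NPC.Poly.pair e1 hs) e5
  refine (NPC.Poly.ite (NPC.Poly.decide_bool e4) (NPC.Poly.pair e1 hs) e6).congr fun a => ?_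
  unfold midStep
  change (if ((W a).any (tightF (H a) (p a))) = true then _ else _) =
    (if ((W a).any (tightF (H a) (p a))) = true then _ else
      match ((K a).filter (isUp (fns (H a) (g a)) (E a) (K a))).find? (tightF (H a) (p a)) with
      | none => (p a :: ps a, s a)
      | some i => (p a :: ps a, (0, i :: E a, (K a).filter (fun j => decide (j ≠ i)), W a, 0) ::
        (2, E a, K a, W a, i) :: s a))
  split_ifs
  · rfl
  · cases ((K a).filter (isUp (fns (H a) (g a)) (E a) (K a))).find? (tightF (H a) (p a)) <;> rfl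

theorem poly_endStep {H : α → List (List ℤ)} {g p : α → List ℤ} {ps : α → List (List ℤ)}
    {E K W : α → List ℕ} {i : α → ℕ} {s : α → List Item}
    (hH : NPC.Poly H) (hg : NPC.Poly g) (hp : NPC.Poly p) (hps : NPC.Poly ps)
    (hE : NPC.Poly E) (hK : NPC.Poly K) (hW : NPC.Poly W) (hi : NPC.Poly i) (hs : NPC.Poly s) :
    NPC.Poly (fun a => endStep (fns (H a) (g a)) (p a) (ps a) (E a) (K a) (W a) (i a)
      (s a)) := by
  have e1 : NPC.Poly (fun a => p a :: ps a) := NPC.Poly.cons hp hps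
  have e2 := poly_anyTight hH hp hW
  have e3 : NPC.Poly (fun a => topF (H a) (g a) (E a) (K a) (p a)) :=
    poly_topF hks hH hg hE hK hp
  have e4 := poly_moveF hks hH hg hE hK hW hp
  have e5 : NPC.Poly (fun x : α × List ℤ => (W x.1).any (tightF (H x.1) x.2)) :=
    poly_anyTight (hH.comp (NPC.Poly.fst NPC.Poly.id)) (NPC.Poly.snd NPC.Poly.id)
      (hW.comp (NPC.Poly.fst NPC.Poly.id))
  have e6 : NPC.Poly (fun x : α × List ℤ => x.2 :: p x.1 :: ps x.1) :=
    NPC.Poly.cons (NPC.Poly.snd NPC.Poly.id) (e1.comp (NPC.Poly.fst NPC.Poly.id))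
  have e7 : NPC.Poly (fun a => (K a).filter
      (fun j => ltF (H a) (g a) (E a) (K a) (i a) j)) :=
    NPC.Poly.filter (p := fun a j => ltF (H a) (g a) (E a) (K a) (i a) j) hK
      (poly_ltF hks (hH.comp (NPC.Poly.fst NPC.Poly.id)) (hg.comp (NPC.Poly.fst NPC.Poly.id))
        (hE.comp (NPC.Poly.fst NPC.Poly.id)) (hK.comp (NPC.Poly.fst NPC.Poly.id))
        (hi.comp (NPC.Poly.fst NPC.Poly.id)) (NPC.Poly.snd NPC.Poly.id))
  have e8 : NPC.Poly (fun a => ((0, E a, (K a).filter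
      (fun j => ltF (H a) (g a) (E a) (K a) (i a) j), W a, 0) : Item) :: s a) :=
    NPC.Poly.cons (poly_item (NPC.Poly.const 0) hE e7 hW (NPC.Poly.const 0)) hs
  have e9 : NPC.Poly (fun x : α × List ℤ => if ((W x.1).any (tightF (H x.1) x.2)) = true then
      (x.2 :: p x.1 :: ps x.1, s x.1) else (x.2 :: p x.1 :: ps x.1,
        ((0, E x.1, (K x.1).filter (fun j => ltF (H x.1) (g x.1) (E x.1) (K x.1) (i x.1) j),
          W x.1, 0) : Item) :: s x.1)) :=
    NPC.Poly.ite (NPC.Poly.decide_bool e5)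
      (NPC.Poly.pair e6 (hs.comp (NPC.Poly.fst NPC.Poly.id)))
      (NPC.Poly.pair e6 (e8.comp (NPC.Poly.fst NPC.Poly.id)))
  have e10 := NPC.Poly.optCases (g := fun a => (p a :: ps a, ([] : List Item)))
    (h := fun a p' => if ((W a).any (tightF (H a) p')) = true then
      (p' :: p a :: ps a, s a) else (p' :: p a :: ps a,
        ((0, E a, (K a).filter (fun j => ltF (H a) (g a) (E a) (K a) (i a) j), W a, 0) : Item) ::
          s a)) e4 (NPC.Poly.pair e1 (NPC.Poly.const [])) e9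
  refine (NPC.Poly.ite (NPC.Poly.decide_bool e2) (NPC.Poly.pair e1 hs)
    (NPC.Poly.ite (NPC.Poly.decide_bool e3) (NPC.Poly.pair e1 hs) e10)).congr fun a => ?_
  unfold endStep
  by_cases h1 : (W a).any (tightF (H a) (p a)) = true
  · rw [if_pos h1]
    exact (if_pos h1).symm
  · rw [if_neg h1]
    refine Eq.trans ?_ (if_neg h1).symm
    by_cases h2 : topF (H a) (g a) (E a) (K a) (p a) = true
    · rw [if_pos h2]
      exact (if_pos h2).symm
    · rw [if_neg h2]
      refine Eq.trans ?_ (if_neg h2).symm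
      have hm : (fns (H a) (g a)).move (E a) (K a) (W a) (p a) =
        moveF (H a) (g a) (E a) (K a) (W a) (p a) := rfl
      rw [hm]
      cases moveF (H a) (g a) (E a) (K a) (W a) (p a) with
      | none => rfl
      | some p' =>
        by_cases h3 : (W a).any (tightF (H a) p') = true
        · exact (if_pos h3).trans (if_pos h3).symm
        · exact (if_neg h3).trans (if_neg h3).symm

theorem poly_stepS : NPC.Poly stepS := by
  -- the data of an innermost case
  have a0 : NPC.Poly (fun x : (State × Item × List Item) × List ℤ × List (List ℤ) => x.1.1) :=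
    NPC.Poly.fst (NPC.Poly.fst NPC.Poly.id)
  have aH : NPC.Poly (fun x : (State × Item × List Item) × List ℤ × List (List ℤ) =>
      x.1.1.1.1) := NPC.Poly.fst (NPC.Poly.fst a0)
  have ag : NPC.Poly (fun x : (State × Item × List Item) × List ℤ × List (List ℤ) =>
      x.1.1.1.2) := NPC.Poly.snd (NPC.Poly.fst a0)
  have ait : NPC.Poly (fun x : (State × Item × List Item) × List ℤ × List (List ℤ) =>
      x.1.2.1) := NPC.Poly.fst (NPC.Poly.snd (NPC.Poly.fst NPC.Poly.id))
  have ar : NPC.Poly (fun x : (State × Item × List Item) × List ℤ × List (List ℤ) =>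
      x.1.2.2) := NPC.Poly.snd (NPC.Poly.snd (NPC.Poly.fst NPC.Poly.id))
  have ap : NPC.Poly (fun x : (State × Item × List Item) × List ℤ × List (List ℤ) =>
      x.2.1) := NPC.Poly.fst (NPC.Poly.snd NPC.Poly.id)
  have aps : NPC.Poly (fun x : (State × Item × List Item) × List ℤ × List (List ℤ) =>
      x.2.2) := NPC.Poly.snd (NPC.Poly.snd NPC.Poly.id)
  have ak := NPC.Poly.fst ait
  have aE := NPC.Poly.fst (NPC.Poly.snd ait)
  have aK := NPC.Poly.fst (NPC.Poly.snd (NPC.Poly.snd ait))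
  have aW := NPC.Poly.fst (NPC.Poly.snd (NPC.Poly.snd (NPC.Poly.snd ait)))
  have ai := NPC.Poly.snd (NPC.Poly.snd (NPC.Poly.snd (NPC.Poly.snd ait)))
  have b1 := poly_callStep hks aH ag ap aps aE aK aW ar
  have b2 := poly_midStep hks aH ag ap aps aE aK aW ar
  have b3 := poly_endStep hks aH ag ap aps aE aK aW ai ar
  have b4 := NPC.Poly.pair (NPC.Poly.fst a0) (NPC.Poly.ite
    (NPC.Poly.decide_eq ak (NPC.Poly.const 0)) b1
    (NPC.Poly.ite (NPC.Poly.decide_eq ak (NPC.Poly.const 1)) b2 b3))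
  have b5 := NPC.Poly.listCases (l := fun x : State × Item × List Item => x.1.2.1)
    (g := fun x => x.1)
    (h := fun x p ps => (x.1.1, if x.2.1.1 = 0 then
        callStep (fns x.1.1.1 x.1.1.2) p ps x.2.1.2.1 x.2.1.2.2.1 x.2.1.2.2.2.1 x.2.2
      else if x.2.1.1 = 1 then
        midStep (fns x.1.1.1 x.1.1.2) p ps x.2.1.2.1 x.2.1.2.2.1 x.2.1.2.2.2.1 x.2.2
      else endStep (fns x.1.1.1 x.1.1.2) p ps x.2.1.2.1 x.2.1.2.2.1 x.2.1.2.2.2.1
        x.2.1.2.2.2.2 x.2.2))
    (NPC.Poly.fst (NPC.Poly.snd (NPC.Poly.fst NPC.Poly.id))) (NPC.Poly.fst NPC.Poly.id) b4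
  have b5' : NPC.Poly (fun x : State × Item × List Item => match x.1.2.1 with
      | [] => x.1
      | p :: ps => (x.1.1, if x.2.1.1 = 0 then
          callStep (fns x.1.1.1 x.1.1.2) p ps x.2.1.2.1 x.2.1.2.2.1 x.2.1.2.2.2.1 x.2.2
        else if x.2.1.1 = 1 then
          midStep (fns x.1.1.1 x.1.1.2) p ps x.2.1.2.1 x.2.1.2.2.1 x.2.1.2.2.2.1 x.2.2
        else endStep (fns x.1.1.1 x.1.1.2) p ps x.2.1.2.1 x.2.1.2.2.1 x.2.1.2.2.2.1
          x.2.1.2.2.2.2 x.2.2)) := b5.congr fun x => by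
    obtain ⟨⟨c, ps, s⟩, it, r⟩ := x
    cases ps <;> rfl
  have b6 := NPC.Poly.listCases (l := fun x : State => x.2.2) (g := fun x => x)
    (h := fun x it r => match x.2.1 with
      | [] => x
      | p :: ps => (x.1, if it.1 = 0 then
          callStep (fns x.1.1 x.1.2) p ps it.2.1 it.2.2.1 it.2.2.2.1 r
        else if it.1 = 1 then
          midStep (fns x.1.1 x.1.2) p ps it.2.1 it.2.2.1 it.2.2.2.1 r
        else endStep (fns x.1.1 x.1.2) p ps it.2.1 it.2.2.1 it.2.2.2.1 it.2.2.2.2 r))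
    (NPC.Poly.snd (NPC.Poly.snd NPC.Poly.id)) NPC.Poly.id b5'
  refine b6.congr fun x => ?_
  obtain ⟨⟨H, g⟩, ps, s⟩ := x
  cases s with
  | nil => cases ps <;> rfl
  | cons it r => cases ps <;> rfl

end fns

section out

open Pool.Agent.H528R3.FD.PolyZZ

variable {α : Type} [TEnc α]

theorem poly_intCast {f : α → ℤ} (hf : NPC.Poly f) : NPC.Poly (fun a => ((f a : ℤ) : ℚ)) :=
  (poly_mkRat hf (NPC.Poly.const 1)).congr fun a => by
    rw [Rat.mkRat_eq_div]
    simp

theorem poly_toQ {n : α → ℕ} {p : α → List ℤ} (hn : UPoly n) (hp : NPC.Poly p) :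
    NPC.Poly (fun a => toQ (n a) (p a)) :=
  NPC.Poly.map (l := fun a => List.range (n a))
    (F := fun a j => (((p a).getD j 0 : ℤ) : ℚ) / (((p a).getD (n a) 0 : ℤ) : ℚ)) hn.range
    (poly_div (poly_intCast (NPC.Poly.getD (hp.comp (NPC.Poly.fst NPC.Poly.id))
        (NPC.Poly.snd NPC.Poly.id) (NPC.Poly.const 0)))
      (poly_intCast (NPC.Poly.getD (hp.comp (NPC.Poly.fst NPC.Poly.id))
        (hn.toPoly.comp (NPC.Poly.fst NPC.Poly.id)) (NPC.Poly.const 0))))

theorem poly_outS : NPC.Poly outS := by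
  have hg : NPC.Poly (fun s : State => s.1.2) := NPC.Poly.snd (NPC.Poly.fst NPC.Poly.id)
  have hn : UPoly (fun s : State => s.1.2.length - 1) :=
    UPoly.of_le (NPC.Poly.sub (NPC.Poly.length hg) (NPC.Poly.const 1)) (UPoly.length hg)
      fun a => Nat.sub_le _ _
  exact NPC.Poly.map (l := fun s : State => s.2.1.reverse)
    (F := fun s p => toQ (s.1.2.length - 1) p)
    (NPC.Poly.reverse (NPC.Poly.fst (NPC.Poly.snd NPC.Poly.id)))
    (poly_toQ (hn.comp (NPC.Poly.fst NPC.Poly.id)) (NPC.Poly.snd NPC.Poly.id))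

end out

end Pool.Agent.W368
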