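import Pool.Agent.W217.BE.Stm

set_option autoImplicit false

namespace Pool.Agent.W368.BESIGTAU

open Pool.Agent.W217.BE Polynomial

/-- constant term, as a linear map. -/
noncomputable def ct (C : Type) [CommRing C] : C[X] →ₗ[C] C[X] where
  toFun p := Polynomial.C (p.coeff 0)
  map_add' p q := by simp
  map_smul' c p := by
    simp only [RingHom.id_apply, Polynomial.smul_eq_C_mul, Polynomial.coeff_C_mul, map_mul]

/-- division by the variable, as a linear map. -/
noncomputable def dv (C : Type) [CommRing C] : C[X] →ₗ[C] C[X] where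
  toFun p := Polynomial.divX p
  map_add' p q := Polynomial.divX_add
  map_smul' c p := by
    simp only [RingHom.id_apply, Polynomial.smul_eq_C_mul, Polynomial.divX_C_mul]

theorem main : SIGTAU := by
  intro C _ P _ _ _ _ hP
  have := hP
  obtain ⟨s, hs⟩ := Module.projective_def'.mp hP
  have hs' : ∀ x, Finsupp.linearCombination C[X] (id : P → P) (s x) = x := fun x =>
    LinearMap.congr_fun hs x
  refine ⟨?_, ?_⟩
  · have : Module.Free C (P →₀ C[X]) := inferInstance
    exact Module.Projective.of_split (s.restrictScalars C)
      ((Finsupp.linearCombination C[X] (id : P → P)).restrictScalars C)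
      (LinearMap.ext hs')
  · let r : (P →₀ C[X]) →ₗ[C] P :=
      (Finsupp.linearCombination C[X] (id : P → P)).restrictScalars C
    let t : P →ₗ[C] (P →₀ C[X]) := s.restrictScalars C
    have hX : ∀ f : P →₀ C[X], Finsupp.mapRange.linearMap (ct C) ((X : C[X]) • f) = 0 := by
      intro f
      ext a : 1
      simp [ct, Finsupp.mapRange.linearMap_apply]
    have hY : ∀ f : P →₀ C[X], Finsupp.mapRange.linearMap (dv C) ((X : C[X]) • f) = f := by
      intro f
      ext a n
      simp [dv, Finsupp.mapRange.linearMap_apply, Polynomial.coeff_divX,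
        Polynomial.coeff_X_mul]
    have hZ : ∀ f : P →₀ C[X], f = Finsupp.mapRange.linearMap (ct C) f +
        (X : C[X]) • Finsupp.mapRange.linearMap (dv C) f := by
      intro f
      refine Finsupp.ext fun a => ?_
      simp only [ct, dv, Finsupp.coe_add, Finsupp.coe_smul, Pi.add_apply, Pi.smul_apply,
        Finsupp.mapRange.linearMap_apply, Finsupp.mapRange_apply, LinearMap.coe_mk,
        AddHom.coe_mk, smul_eq_mul]
      rw [add_comm]
      exact (Polynomial.X_mul_divX_add (f a)).symm
    refine ⟨r ∘ₗ Finsupp.mapRange.linearMap (ct C) ∘ₗ t,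
      r ∘ₗ Finsupp.mapRange.linearMap (dv C) ∘ₗ t, ?_, ?_, ?_⟩
    · intro x
      have h1 : x = Finsupp.linearCombination C[X] (id : P → P) (s x) := (hs' x).symm
      have h2 := congrArg (Finsupp.linearCombination C[X] (id : P → P)) (hZ (s x))
      rw [map_add, map_smul, ← h1] at h2
      exact h2
    · intro x
      have h1 : t ((X : C[X]) • x) = (X : C[X]) • t x := map_smul s _ _
      simp only [LinearMap.comp_apply, h1, hX, map_zero]
    · intro x
      have h1 : t ((X : C[X]) • x) = (X : C[X]) • t x := map_smul s _ _
      simp only [LinearMap.comp_apply, h1, hY]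
      exact hs' x

end Pool.Agent.W368.BESIGTAU
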