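import Pool.Agent.W503.EH.Stmts
import Pool.Agent.W503.EH.Basic

/-!
# Steiner's formula for boxes
-/

namespace Pool.Agent.W368.EH

open MeasureTheory Set Pool.Agent.W503.EH

/-- distance from `x` to `[l, l + n]` -/
noncomputable def dI (l n x : ℝ) : ℝ := max (max (l - x) (x - (l + n))) 0

theorem dI_nonneg (l n x : ℝ) : 0 ≤ dI l n x := le_max_right _ _

theorem continuous_dI (l n : ℝ) : Continuous (dI l n) := by
  unfold dI
  fun_prop

theorem dI_left {l n x : ℝ} (hn : 0 ≤ n) (h : x ≤ l) : dI l n x = l - x := by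
  unfold dI
  rw [max_eq_left (a := l - x) (by linarith), max_eq_left (by linarith)]

theorem dI_mid {l n x : ℝ} (h : l ≤ x) (h' : x ≤ l + n) : dI l n x = 0 := by
  unfold dI
  rw [max_eq_right]
  exact max_le (by linarith) (by linarith)

theorem dI_right {l n x : ℝ} (hn : 0 ≤ n) (h : l + n ≤ x) : dI l n x = x - (l + n) := by
  unfold dI
  rw [max_eq_right (a := l - x) (by linarith), max_eq_left (by linarith)]

theorem dI_le_iff {l n x ρ : ℝ} (hρ : 0 ≤ ρ) :
    dI l n x ≤ ρ ↔ l - ρ ≤ x ∧ x ≤ l + n + ρ := by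
  unfold dI
  rw [max_le_iff, max_le_iff]
  constructor
  · rintro ⟨⟨h1, h2⟩, _⟩
    constructor <;> linarith
  · rintro ⟨h1, h2⟩
    exact ⟨⟨by linarith, by linarith⟩, hρ⟩

/-- the `ρ`-neighbourhood (Euclidean) of the box -/
def NB {m : ℕ} (l n : Fin m → ℝ) (ρ : ℝ) : Set (Fin m → ℝ) :=
  {x | ∑ i, dI (l i) (n i) (x i) ^ 2 ≤ ρ ^ 2}

theorem measurableSet_NB {m : ℕ} (l n : Fin m → ℝ) (ρ : ℝ) : MeasurableSet (NB l n ρ) := by
  refine (isClosed_le ?_ continuous_const).measurableSet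
  refine continuous_finsetSum _ fun i _ => ?_
  exact ((continuous_dI _ _).comp (continuous_apply i)).pow 2

theorem sl_NB {m : ℕ} (l n : Fin m → ℝ) (l0 n0 ρ t : ℝ) (hρ : 0 ≤ ρ) (h : dI l0 n0 t ≤ ρ) :
    sl (NB (cs l0 l) (cs n0 n) ρ) t = NB l n (√(ρ ^ 2 - dI l0 n0 t ^ 2)) := by
  ext x
  have h0 : 0 ≤ ρ ^ 2 - dI l0 n0 t ^ 2 := by
    have := dI_nonneg l0 n0 t
    nlinarith
  simp only [sl, NB, mem_ofPred_eq, Fin.sum_univ_succ, cs_zero, cs_succ, Real.sq_sqrt h0]
  constructor <;> intro h <;> linarith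

theorem sl_NB_empty {m : ℕ} (l n : Fin m → ℝ) (l0 n0 ρ t : ℝ) (hρ : 0 ≤ ρ) (h : ρ < dI l0 n0 t) :
    sl (NB (cs l0 l) (cs n0 n) ρ) t = ∅ := by
  ext x
  simp only [sl, NB, mem_ofPred_eq, Fin.sum_univ_succ, cs_zero, cs_succ, mem_empty_iff_false,
    iff_false, not_le]
  have : 0 ≤ ∑ i, dI (l i) (n i) (x i) ^ 2 := Finset.sum_nonneg fun i _ => sq_nonneg _
  nlinarith

theorem slice_formula {m : ℕ} (l n : Fin m → ℝ) (W : ℝ → ℝ) (hW : Continuous W)
    (hW0 : ∀ s, 0 ≤ s → 0 ≤ W s) (h : ∀ s, 0 ≤ s → volume (NB l n s) = ENNReal.ofReal (W s))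
    (l0 n0 ρ : ℝ) (hn0 : 0 ≤ n0) (hρ : 0 ≤ ρ) :
    volume (NB (cs l0 l) (cs n0 n) ρ) =
      ENNReal.ofReal (n0 * W ρ + 2 * ∫ s in (0 : ℝ)..ρ, W (√(ρ ^ 2 - s ^ 2))) := by
  have hg : Continuous fun t => W (√(ρ ^ 2 - dI l0 n0 t ^ 2)) :=
    hW.comp (Real.continuous_sqrt.comp (by
      have := continuous_dI l0 n0
      fun_prop))
  rw [volume_slices (measurableSet_NB _ _ _)]
  have h1 : ∀ t, volume (sl (NB (cs l0 l) (cs n0 n) ρ) t) =
      (Icc (l0 - ρ) (l0 + n0 + ρ)).indicator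
        (fun t => ENNReal.ofReal (W (√(ρ ^ 2 - dI l0 n0 t ^ 2)))) t := by
    intro t
    by_cases ht : dI l0 n0 t ≤ ρ
    · have hm : t ∈ Icc (l0 - ρ) (l0 + n0 + ρ) := (dI_le_iff hρ).1 ht
      rw [indicator_of_mem hm, sl_NB _ _ _ _ _ _ hρ ht, h _ (Real.sqrt_nonneg _)]
    · have hm : t ∉ Icc (l0 - ρ) (l0 + n0 + ρ) := fun hh => ht ((dI_le_iff hρ).2 hh)
      rw [indicator_of_notMem hm,
        sl_NB_empty _ _ _ _ _ _ hρ (not_le.1 ht), measure_empty]
  simp_rw [h1]
  rw [lintegral_indicator measurableSet_Icc, ← ofReal_integral_eq_lintegral_ofReal]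
  · congr 1
    rw [integral_Icc_eq_integral_Ioc, ← intervalIntegral.integral_of_le (by linarith)]
    have hi : ∀ a b : ℝ, IntervalIntegrable (fun t => W (√(ρ ^ 2 - dI l0 n0 t ^ 2))) volume a b :=
      fun a b => hg.intervalIntegrable a b
    rw [← intervalIntegral.integral_add_adjacent_intervals (hi (l0 - ρ) l0) (hi l0 (l0 + n0 + ρ)),
      ← intervalIntegral.integral_add_adjacent_intervals (hi l0 (l0 + n0))
        (hi (l0 + n0) (l0 + n0 + ρ))]
    have e1 : ∫ t in (l0 - ρ)..l0, W (√(ρ ^ 2 - dI l0 n0 t ^ 2)) =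
        ∫ s in (0 : ℝ)..ρ, W (√(ρ ^ 2 - s ^ 2)) := by
      have e : ∫ t in (l0 - ρ)..l0, W (√(ρ ^ 2 - dI l0 n0 t ^ 2)) =
          ∫ t in (l0 - ρ)..l0, W (√(ρ ^ 2 - (l0 - t) ^ 2)) := by
        refine intervalIntegral.integral_congr fun t ht => ?_
        rw [uIcc_of_le (by linarith)] at ht
        rw [dI_left hn0 ht.2]
      rw [e, intervalIntegral.integral_comp_sub_left (fun s => W (√(ρ ^ 2 - s ^ 2))) l0]
      congr 1 <;> ring
    have e2 : ∫ t in l0..(l0 + n0), W (√(ρ ^ 2 - dI l0 n0 t ^ 2)) = n0 * W ρ := by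
      have e : ∫ t in l0..(l0 + n0), W (√(ρ ^ 2 - dI l0 n0 t ^ 2)) =
          ∫ t in l0..(l0 + n0), W ρ := by
        refine intervalIntegral.integral_congr fun t ht => ?_
        rw [uIcc_of_le (by linarith)] at ht
        rw [dI_mid ht.1 ht.2, zero_pow two_ne_zero, sub_zero, Real.sqrt_sq hρ]
      rw [e, intervalIntegral.integral_const, smul_eq_mul]
      ring
    have e3 : ∫ t in (l0 + n0)..(l0 + n0 + ρ), W (√(ρ ^ 2 - dI l0 n0 t ^ 2)) =
        ∫ s in (0 : ℝ)..ρ, W (√(ρ ^ 2 - s ^ 2)) := by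
      have e : ∫ t in (l0 + n0)..(l0 + n0 + ρ), W (√(ρ ^ 2 - dI l0 n0 t ^ 2)) =
          ∫ t in (l0 + n0)..(l0 + n0 + ρ), W (√(ρ ^ 2 - (t - (l0 + n0)) ^ 2)) := by
        refine intervalIntegral.integral_congr fun t ht => ?_
        rw [uIcc_of_le (by linarith)] at ht
        rw [dI_right hn0 ht.1]
      rw [e, intervalIntegral.integral_comp_sub_right (fun s => W (√(ρ ^ 2 - s ^ 2))) (l0 + n0)]
      congr 1 <;> ring
    rw [e1, e2, e3]
    ring
  · exact hg.continuousOn.integrableOn_Icc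
  · exact Filter.Eventually.of_forall fun t => hW0 _ (Real.sqrt_nonneg _)

theorem ka_nonneg (j : ℕ) : 0 ≤ ka j := measureReal_nonneg

theorem dI_zero (x : ℝ) : dI 0 0 x ^ 2 = x ^ 2 := by
  rcases le_total x 0 with h | h
  · rw [dI_left le_rfl h]
    ring
  · rw [dI_right le_rfl (by simpa using h)]
    ring

theorem volume_NB_zero (m : ℕ) (s : ℝ) (hs : 0 ≤ s) :
    volume (NB (0 : Fin m → ℝ) 0 s) = ENNReal.ofReal (ka m * s ^ m) := by
  have h1 : (@WithLp.ofLp 2 (Fin m → ℝ)) ⁻¹' (NB (0 : Fin m → ℝ) 0 s) =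
      Metric.closedBall (0 : EuclideanSpace ℝ (Fin m)) s := by
    ext x
    rw [mem_preimage, mem_closedBall_zero_iff, EuclideanSpace.norm_eq,
      Real.sqrt_le_left hs]
    simp only [NB, mem_ofPred_eq, Pi.zero_apply, dI_zero, Real.norm_eq_abs, sq_abs]
  rw [← (PiLp.volume_preserving_ofLp (Fin m)).measure_preimage
    (measurableSet_NB _ _ _).nullMeasurableSet, h1, Measure.addHaar_closedBall' _ _ hs,
    finrank_euclideanSpace, Fintype.card_fin, ka, mul_comm, measureReal_def,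
    ENNReal.ofReal_mul ENNReal.toReal_nonneg, ENNReal.ofReal_toReal]
  exact (isCompact_closedBall _ _).measure_ne_top

theorem cs_zero_zero {m : ℕ} : cs 0 (0 : Fin m → ℝ) = 0 := by
  ext i
  refine Fin.cases ?_ (fun i => ?_) i <;> simp

theorem ball_rec (m : ℕ) (ρ : ℝ) (hρ : 0 ≤ ρ) :
    2 * ∫ s in (0 : ℝ)..ρ, ka m * (√(ρ ^ 2 - s ^ 2)) ^ m = ka (m + 1) * ρ ^ (m + 1) := by
  have h := slice_formula (0 : Fin m → ℝ) 0 (fun s => ka m * s ^ m) (by fun_prop)
    (fun s hs => mul_nonneg (ka_nonneg m) (pow_nonneg hs _)) (fun s hs => volume_NB_zero m s hs)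
    0 0 ρ le_rfl hρ
  rw [cs_zero_zero, volume_NB_zero _ _ hρ, zero_mul, zero_add] at h
  have h0 : 0 ≤ ∫ s in (0 : ℝ)..ρ, ka m * (√(ρ ^ 2 - s ^ 2)) ^ m :=
    intervalIntegral.integral_nonneg hρ fun s _ =>
      mul_nonneg (ka_nonneg m) (pow_nonneg (Real.sqrt_nonneg _) _)
  exact ((ENNReal.ofReal_eq_ofReal_iff (mul_nonneg (ka_nonneg _) (pow_nonneg hρ _))
    (mul_nonneg (by norm_num) h0)).1 h).symm

theorem el_top {m : ℕ} (n : Fin m → ℝ) : el (m + 1) n = 0 := by
  unfold el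
  rw [Finset.filter_false_of_mem, Finset.sum_empty]
  intro s _
  omega

theorem el_nonneg {m : ℕ} (r : ℕ) {n : Fin m → ℝ} (hn : ∀ i, 0 ≤ n i) : 0 ≤ el r n :=
  Finset.sum_nonneg fun _ _ => Finset.prod_nonneg fun _ _ => hn _

/-- sums over the subsets of `Fin (m + 1)` -/
theorem sum_sets {m : ℕ} (F : Finset (Fin (m + 1)) → ℝ) :
    ∑ s, F s = ∑ s : Finset (Fin m), F (s.map (Fin.succEmb m)) +
      ∑ s : Finset (Fin m), F (insert 0 (s.map (Fin.succEmb m))) := by
  have h := Finset.sum_powerset_insert (s := (Finset.univ : Finset (Fin m)).map (Fin.succEmb m))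
    (a := (0 : Fin (m + 1))) (by simp) F
  have e1 : insert (0 : Fin (m + 1)) ((Finset.univ : Finset (Fin m)).map (Fin.succEmb m)) =
      Finset.univ := by
    ext i
    refine Fin.cases ?_ (fun i => ?_) i <;> simp
  have e2 : ∀ G : Finset (Fin (m + 1)) → ℝ,
      ∑ t ∈ ((Finset.univ : Finset (Fin m)).map (Fin.succEmb m)).powerset, G t =
      ∑ s : Finset (Fin m), G (s.map (Fin.succEmb m)) := by
    intro G
    rw [Finset.map_eq_image, Finset.powerset_image, Finset.sum_image, Finset.powerset_univ]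
    · refine Finset.sum_congr rfl fun s _ => ?_
      rw [Finset.map_eq_image]
    · intro a _ b _ h
      exact Finset.image_injective (Fin.succ_injective m) h
  rw [e1, Finset.powerset_univ, e2, e2] at h
  exact h

theorem el_eq {m : ℕ} (r : ℕ) (n : Fin m → ℝ) :
    el r n = ∑ s : Finset (Fin m), if s.card + r = m then ∏ j ∈ s, n j else 0 := by
  unfold el
  rw [Finset.sum_filter]

theorem el_cs_succ {m : ℕ} (r : ℕ) (n0 : ℝ) (n : Fin m → ℝ) :
    el (r + 1) (cs n0 n) = el r n + n0 * el (r + 1) n := by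
  rw [el_eq, el_eq, el_eq, sum_sets]
  congr 1
  · refine Finset.sum_congr rfl fun s _ => ?_
    rw [Finset.card_map, Finset.prod_map]
    have : (s.card + (r + 1) = m + 1) = (s.card + r = m) := by
      apply propext; omega
    simp only [this]
    rfl
  · rw [Finset.mul_sum]
    refine Finset.sum_congr rfl fun s _ => ?_
    rw [Finset.card_insert_of_notMem (by simp), Finset.card_map,
      Finset.prod_insert (by simp), Finset.prod_map]
    have : (s.card + 1 + (r + 1) = m + 1) = (s.card + (r + 1) = m) := by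
      apply propext; omega
    simp only [this]
    split_ifs
    · rfl
    · simp

theorem el_cs_zero {m : ℕ} (n0 : ℝ) (n : Fin m → ℝ) :
    el 0 (cs n0 n) = n0 * el 0 n := by
  rw [el_eq, el_eq, sum_sets]
  have h1 : ∑ s : Finset (Fin m), (if (s.map (Fin.succEmb m)).card + 0 = m + 1 then
      ∏ j ∈ s.map (Fin.succEmb m), cs n0 n j else 0) = 0 := by
    refine Finset.sum_eq_zero fun s _ => ?_
    rw [if_neg]
    rw [Finset.card_map]
    have := Finset.card_le_univ s
    rw [Fintype.card_fin] at this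
    omega
  rw [h1, zero_add, Finset.mul_sum]
  refine Finset.sum_congr rfl fun s _ => ?_
  rw [Finset.card_insert_of_notMem (by simp), Finset.card_map,
    Finset.prod_insert (by simp), Finset.prod_map]
  have : (s.card + 1 + 0 = m + 1) = (s.card + 0 = m) := by
    apply propext; omega
  simp only [this]
  split_ifs
  · rfl
  · simp

theorem volume_NB (m : ℕ) : ∀ (l n : Fin m → ℝ), (∀ i, 0 ≤ n i) → ∀ s, 0 ≤ s →
    volume (NB l n s) =
      ENNReal.ofReal (∑ r ∈ Finset.range (m + 1), ka r * s ^ r * el r n) := by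
  induction m with
  | zero =>
    intro l n _ s hs
    have h0 := volume_NB_zero 0 s hs
    have e1 : l = 0 := Subsingleton.elim _ _
    have e2 : n = 0 := Subsingleton.elim _ _
    rw [e1, e2, h0]
    congr 1
    have h1 : el 0 (0 : Fin 0 → ℝ) = 1 := by
      have hd : (default : Finset (Fin 0)) = ∅ := Subsingleton.elim _ _
      rw [el_eq, Fintype.sum_unique, hd, if_pos (by simp), Finset.prod_empty]
    rw [Finset.sum_range_one, h1, mul_one]
  | succ m ih =>
    intro l n hn ρ hρ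
    rw [← cs_eta l, ← cs_eta n]
    set l' : Fin m → ℝ := fun i => l i.succ
    set n' : Fin m → ℝ := fun i => n i.succ with hn'
    have hn'0 : ∀ i, 0 ≤ n' i := fun i => hn _
    rw [slice_formula l' n' (fun s => ∑ r ∈ Finset.range (m + 1), ka r * s ^ r * el r n')
      (by fun_prop) (fun s hs => Finset.sum_nonneg fun r _ =>
        mul_nonneg (mul_nonneg (ka_nonneg r) (pow_nonneg hs _)) (el_nonneg _ hn'0))
      (fun s hs => ih l' n' hn'0 s hs) (l 0) (n 0) ρ (hn 0) hρ]
    congr 1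
    have h1 : 2 * ∫ s in (0 : ℝ)..ρ, ∑ r ∈ Finset.range (m + 1),
        ka r * (√(ρ ^ 2 - s ^ 2)) ^ r * el r n' =
        ∑ r ∈ Finset.range (m + 1), ka (r + 1) * ρ ^ (r + 1) * el r n' := by
      rw [intervalIntegral.integral_finsetSum]
      · rw [Finset.mul_sum]
        refine Finset.sum_congr rfl fun r _ => ?_
        rw [intervalIntegral.integral_mul_const, ← mul_assoc, ball_rec r ρ hρ]
      · intro r _
        refine Continuous.intervalIntegrable ?_ _ _
        fun_prop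
    rw [h1, Finset.sum_range_succ' _ (m + 1)]
    have h2 : ∀ r, ka (r + 1) * ρ ^ (r + 1) * el (r + 1) (cs (n 0) n') =
        ka (r + 1) * ρ ^ (r + 1) * el r n' +
        n 0 * (ka (r + 1) * ρ ^ (r + 1) * el (r + 1) n') := by
      intro r
      rw [el_cs_succ]
      ring
    rw [Finset.sum_congr rfl fun r _ => h2 r, Finset.sum_add_distrib, ← Finset.mul_sum,
      el_cs_zero]
    have h3 : ∑ r ∈ Finset.range (m + 1), ka r * ρ ^ r * el r n' =
        ∑ r ∈ Finset.range (m + 1), ka (r + 1) * ρ ^ (r + 1) * el (r + 1) n' +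
        ka 0 * ρ ^ 0 * el 0 n' := by
      have h4 := Finset.sum_range_succ' (fun r => ka r * ρ ^ r * el r n') (m + 1)
      rw [Finset.sum_range_succ, el_top, mul_zero, add_zero] at h4
      exact h4
    rw [h3]
    ring

theorem clamp_dI (l n x : ℝ) (hn : 0 ≤ n) :
    l ≤ max l (min x (l + n)) ∧ max l (min x (l + n)) ≤ l + n ∧
      (x - max l (min x (l + n))) ^ 2 = dI l n x ^ 2 := by
  refine ⟨le_max_left _ _, max_le (by linarith) (min_le_right _ _), ?_⟩
  rcases le_total x l with h | h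
  · rw [min_eq_left (by linarith), max_eq_left h, dI_left hn h]
    ring
  · rcases le_total x (l + n) with h' | h'
    · rw [min_eq_left h', max_eq_right h, dI_mid h h']
      ring
    · rw [min_eq_right h', max_eq_right (by linarith), dI_right hn h']

theorem dI_le_abs {l n x y : ℝ} (h : l ≤ y) (h' : y ≤ l + n) : dI l n x ^ 2 ≤ (x - y) ^ 2 := by
  have hn : 0 ≤ n := by linarith
  rcases le_total x l with h1 | h1
  · rw [dI_left hn h1]
    nlinarith
  · rcases le_total x (l + n) with h2 | h2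
    · rw [dI_mid h1 h2, zero_pow two_ne_zero]
      exact sq_nonneg _
    · rw [dI_right hn h2]
      nlinarith

theorem isClosed_ebx {m : ℕ} (a : Fin m → ℤ) (n : Fin m → ℕ) : IsClosed (ebx a n) := by
  have : ebx a n = ⋂ i, {x : EuclideanSpace ℝ (Fin m) | (a i : ℝ) ≤ x i ∧ x i ≤ a i + n i} := by
    ext x
    simp [ebx]
  rw [this]
  refine isClosed_iInter fun i => ?_
  have hc : Continuous fun x : EuclideanSpace ℝ (Fin m) => x i := by fun_prop
  exact (isClosed_le continuous_const hc).inter (isClosed_le hc continuous_const)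

theorem t_STE : S_STE := by
  intro m a n ρ hρ
  have h1 : Metric.cthickening ρ (ebx a n) =
      (@WithLp.ofLp 2 (Fin m → ℝ)) ⁻¹' (NB (fun i => (a i : ℝ)) (fun i => (n i : ℝ)) ρ) := by
    rw [(isClosed_ebx a n).cthickening_eq_biUnion_closedBall hρ]
    ext x
    simp only [mem_iUnion, Metric.mem_closedBall, EuclideanSpace.dist_eq, exists_prop,
      mem_preimage, NB, mem_ofPred_eq]
    constructor
    · rintro ⟨y, hy, hxy⟩
      rw [Real.sqrt_le_left hρ] at hxy
      refine le_trans (Finset.sum_le_sum fun i _ => ?_) hxy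
      rw [Real.dist_eq, sq_abs]
      exact dI_le_abs (hy i).1 (hy i).2
    · intro hx
      refine ⟨WithLp.toLp 2 (fun i => max (a i : ℝ) (min (x i) ((a i : ℝ) + (n i : ℝ)))),
        fun i => ?_, ?_⟩
      · exact ⟨(clamp_dI _ _ (x i) (Nat.cast_nonneg (n i))).1,
          (clamp_dI _ _ (x i) (Nat.cast_nonneg (n i))).2.1⟩
      · rw [Real.sqrt_le_left hρ]
        refine le_trans (le_of_eq (Finset.sum_congr rfl fun i _ => ?_)) hx
        rw [Real.dist_eq, sq_abs]
        exact (clamp_dI _ _ (x i) (Nat.cast_nonneg (n i))).2.2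
  rw [h1, measureReal_def, (PiLp.volume_preserving_ofLp (Fin m)).measure_preimage
    (measurableSet_NB _ _ _).nullMeasurableSet, volume_NB m _ _ (fun i => Nat.cast_nonneg _) ρ hρ,
    ENNReal.toReal_ofReal]
  exact Finset.sum_nonneg fun r _ =>
    mul_nonneg (mul_nonneg (ka_nonneg r) (pow_nonneg hρ _))
      (el_nonneg _ fun i => Nat.cast_nonneg _)

end Pool.Agent.W368.EH
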