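import Pool.Agent.H547R7.Stm2

/-!
# Task L1P: the new generator is computed in polynomial time
-/

set_option autoImplicit false

namespace Pool.Agent.NPC.W368P

open Pool.Agent.H547R7 Pool.Agent.H547R6 Pool.Agent.NPC Pool.Agent.H424R2.PPAD

section lib

variable {α β γ : Type} [TEnc α] [TEnc β] [TEnc γ]

theorem poly_replicate {n : α → ℕ} {x : α → β} (hn : UPoly n) (hx : Poly x) :
    Poly (fun a => List.replicate (n a) (x a)) :=
  (Poly.map (F := fun a _ => x a) hn (hx.comp (Poly.fst Poly.id))).congr fun a => by simp

omit [TEnc β] in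
theorem zipIdx_filter_lt (l : List β) (m s : ℕ) :
    ((l.zipIdx s).filter (fun p => decide (p.2 < m + s))).map Prod.fst = l.take m := by
  induction l generalizing m s with
  | nil => simp
  | cons b l ih =>
    rw [List.zipIdx_cons, List.filter_cons]
    cases m with
    | zero =>
      simp only [Nat.zero_add, lt_self_iff_false, decide_false, Bool.false_eq_true, if_false,
        List.take_zero]
      have : (l.zipIdx (s + 1)).filter (fun p => decide (p.2 < s)) = [] := by
        rw [List.filter_eq_nil_iff]
        rintro ⟨x, i⟩ hx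
        have := List.le_snd_of_mem_zipIdx hx
        simp only [decide_eq_true_eq, not_lt]
        omega
      rw [this]; rfl
    | succ m =>
      have h : s < m + 1 + s := by omega
      simp only [h, decide_true, if_true, List.map_cons, List.take_succ_cons]
      congr 1
      have := ih m (s + 1)
      rw [← this]
      congr 2
      funext p
      congr 2
      omega

omit [TEnc β] in
theorem zipIdx_filter_ge (l : List β) (m s : ℕ) :
    ((l.zipIdx s).filter (fun p => decide (m + s ≤ p.2))).map Prod.fst = l.drop m := by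
  induction l generalizing m s with
  | nil => simp
  | cons b l ih =>
    rw [List.zipIdx_cons, List.filter_cons]
    cases m with
    | zero =>
      simp only [Nat.zero_add, le_refl, decide_true, if_true, List.drop_zero, List.map_cons]
      congr 1
      have : (l.zipIdx (s + 1)).filter (fun p => decide (s ≤ p.2)) = l.zipIdx (s + 1) := by
        rw [List.filter_eq_self]
        rintro ⟨x, i⟩ hx
        have := List.le_snd_of_mem_zipIdx hx
        simp only [decide_eq_true_eq]
        omega
      rw [this]
      simp
    | succ m =>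
      have h : ¬ (m + 1 + s ≤ s) := by omega
      simp only [h, decide_false, Bool.false_eq_true, if_false, List.drop_succ_cons]
      have := ih m (s + 1)
      rw [← this]
      congr 2
      funext p
      congr 2
      omega

theorem poly_take {l : α → List β} {m : α → ℕ} (hl : Poly l) (hm : Poly m) :
    Poly (fun a => (l a).take (m a)) := by
  refine (Poly.map (F := fun _ (p : β × ℕ) => p.1)
    (Poly.filter (p := fun a (p : β × ℕ) => decide (p.2 < m a)) (Poly.zipIdx hl)
      (Poly.decide_lt (Poly.snd (Poly.snd Poly.id)) (hm.comp (Poly.fst Poly.id))))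
    (Poly.fst (Poly.snd Poly.id))).congr fun a => ?_
  have := zipIdx_filter_lt (l a) (m a) 0
  simpa using this

theorem poly_drop {l : α → List β} {m : α → ℕ} (hl : Poly l) (hm : Poly m) :
    Poly (fun a => (l a).drop (m a)) := by
  refine (Poly.map (F := fun _ (p : β × ℕ) => p.1)
    (Poly.filter (p := fun a (p : β × ℕ) => decide (m a ≤ p.2)) (Poly.zipIdx hl)
      (Poly.decide_le (hm.comp (Poly.fst Poly.id)) (Poly.snd (Poly.snd Poly.id))))
    (Poly.fst (Poly.snd Poly.id))).congr fun a => ?_
  have := zipIdx_filter_ge (l a) (m a) 0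
  simpa using this

theorem poly_countP {l : α → List β} {p : α → β → Bool} (hl : Poly l)
    (hp : Poly (fun q : α × β => p q.1 q.2)) : Poly (fun a => (l a).countP (p a)) :=
  (Poly.length (Poly.filter hl hp)).congr fun a => by rw [List.countP_eq_length_filter]

theorem log_eq_size (n : ℕ) (hn : n ≠ 0) : Nat.log 2 n = n.bits.length - 1 := by
  rw [Nat.size_eq_bits_len]
  have h1 : Nat.log 2 n < n.size := by
    rw [Nat.lt_size]
    exact Nat.pow_log_le_self 2 hn
  have h2 : n.size ≤ Nat.log 2 n + 1 := by
    rw [Nat.size_le]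
    exact Nat.lt_pow_succ_log_self (by norm_num) n
  omega

theorem poly_log {n : α → ℕ} (hn : Poly n) : Poly (fun a => Nat.log 2 (n a)) := by
  refine (Poly.sub (Poly.length (Poly.natBits hn)) (Poly.const 1)).congr fun a => ?_
  by_cases h : n a = 0
  · simp [h]
  · exact (log_eq_size _ h).symm

theorem uPoly_pow {n : α → ℕ} (hn : UPoly n) (k : ℕ) : UPoly (fun a => n a ^ k) := by
  have := UPoly.eval hn (Polynomial.X ^ k)
  simpa using this

/-- doubling step -/
def allF (l : List (List Bool)) : List (List Bool) :=
  l.map (fun s => false :: s) ++ l.map (fun s => true :: s)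

theorem allS_eq (k : ℕ) : allF^[k] [[]] = allS k := by
  induction k with
  | zero => rfl
  | succ k ih => rw [Function.iterate_succ_apply', ih]; rfl

theorem allS_length (k : ℕ) : (allS k).length = 2 ^ k := by
  induction k with
  | zero => rfl
  | succ k ih => simp [allS, ih, pow_succ]; ring

theorem allS_mem (k : ℕ) : ∀ s ∈ allS k, s.length = k := by
  induction k with
  | zero => intro s hs; simp [allS] at hs; simp [hs]
  | succ k ih =>
    intro s hs
    simp only [allS, List.mem_append, List.mem_map] at hs
    rcases hs with ⟨t, ht, rfl⟩ | ⟨t, ht, rfl⟩ <;> simp [ih t ht]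

theorem poly_allF {l : α → List (List Bool)} (hl : Poly l) : Poly (fun a => allF (l a)) :=
  Poly.append
    (Poly.map (F := fun _ s => false :: s) hl (Poly.cons (Poly.const false) (Poly.snd Poly.id)))
    (Poly.map (F := fun _ s => true :: s) hl (Poly.cons (Poly.const true) (Poly.snd Poly.id)))

theorem poly_allS {k B : α → ℕ} (hk : UPoly k) (hB : UPoly B) (h : ∀ a, 2 ^ k a ≤ B a) :
    Poly (fun a => allS (k a)) := by
  obtain ⟨p, hp⟩ := hB.sz_le
  have := Poly.iterLen (l := fun a => List.replicate (k a) ()) (s := fun _ => [([] : List Bool)])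
    (F := fun _ s => allF s) hk (Poly.const _) (poly_allF (Poly.snd Poly.id))
    (p * (Polynomial.C 4 * p + Polynomial.C 2) + Polynomial.C 1) (by
      intro a j hj
      simp only [List.length_replicate] at hj
      change sz (allF^[j] [[]]) ≤ _
      rw [allS_eq]
      have hBa : B a < sz (List.replicate (B a) ()) := by
        have := length_lt_sz (List.replicate (B a) ())
        simpa using this
      have h1 : 2 ^ j ≤ 2 ^ k a := Nat.pow_le_pow_right (by norm_num) hj
      have h2 : j < 2 ^ j := Nat.lt_two_pow_self
      have h3 := h a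
      have h4 := hp a
      have hb : ∀ s ∈ allS j, sz s ≤ 4 * (p.eval (sz a)) + 1 := by
        intro s hs
        have h5 := sz_listBool_le s
        rw [allS_mem j s hs] at h5
        omega
      have h6 := sz_le_length_mul (allS j) _ hb
      rw [allS_length] at h6
      simp only [Polynomial.eval_add, Polynomial.eval_mul, Polynomial.eval_C]
      refine h6.trans ?_
      have h7 : 2 ^ j ≤ p.eval (sz a) := by omega
      have h8 := Nat.mul_le_mul_right (4 * (p.eval (sz a)) + 1 + 1) h7
      exact Nat.succ_le_succ h8)
  refine this.congr fun a => ?_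
  rw [List.length_replicate]
  exact allS_eq _

end lib

section main

variable {α : Type} [TEnc α]

theorem uPoly_rr {n : α → ℕ} (e : ℕ) (hn : UPoly n) : UPoly (fun a => rr e (n a)) := by
  unfold rr
  exact UPoly.mul (UPoly.const _) (uPoly_pow (UPoly.add hn (UPoly.const 1)) 2)

theorem poly_kk {n : α → ℕ} (e : ℕ) (hn : Poly n) : Poly (fun a => kk e (n a)) := by
  unfold kk
  have h1 : Poly (fun a => n a + 1) := Poly.add hn (Poly.const 1)
  exact Poly.sub (Poly.mul (Poly.const _) h1) (Poly.mul (Poly.const _) h1)

theorem poly_b0 {n : α → ℕ} (e : ℕ) (hn : Poly n) : Poly (fun a => b0 e (n a)) := by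
  unfold b0
  have h1 : Poly (fun a => n a + 1) := Poly.add hn (Poly.const 1)
  exact Poly.add (Poly.mul (Poly.mul (Poly.const _) h1) hn) (Poly.mul (Poly.const _) h1)

theorem poly_a0 {n : α → ℕ} (e : ℕ) (hn : Poly n) : Poly (fun a => a0 e (n a)) := by
  unfold a0
  have h1 : Poly (fun a => n a + 1) := Poly.add hn (Poly.const 1)
  exact Poly.sub (Poly.mul (Poly.mul (Poly.const _) h1) hn) (Poly.mul (Poly.const _) h1)

theorem poly_a1 {n : α → ℕ} (e : ℕ) (hn : Poly n) : Poly (fun a => a1 e (n a)) := by
  unfold a1
  have h1 : Poly (fun a => n a + 1) := Poly.add hn (Poly.const 1)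
  exact Poly.sub (Poly.add (Poly.mul (Poly.mul (Poly.const _) h1) hn)
    (Poly.mul (Poly.const _) h1)) (Poly.mul (Poly.const _) h1)

theorem poly_wtL {x : α → List Bool} (hx : Poly x) : Poly (fun a => wtL (x a)) :=
  poly_countP (p := fun _ b => b) hx (Poly.snd Poly.id)

theorem poly_blkL {n i : α → ℕ} {y : α → List Bool} (hn : Poly n) (hy : Poly y) (hi : Poly i) :
    Poly (fun a => blkL (n a) (y a) (i a)) :=
  poly_take (poly_drop hy (Poly.add (Poly.const 1) (Poly.mul hn hi))) hn

theorem poly_s1L {n : α → ℕ} {y : α → List Bool} (e : ℕ) (hn : UPoly n) (hy : Poly y) :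
    Poly (fun a => s1L e (n a) (y a)) := by
  have hn' := hn.toPoly
  refine poly_countP (p := fun a i => decide (i % (n a + 1) ≤ wtL (blkL (n a) (y a) i)))
    (uPoly_rr e hn).range ?_
  have h1 : Poly (fun q : α × ℕ => n q.1) := hn'.comp (Poly.fst Poly.id)
  have h2 : Poly (fun q : α × ℕ => y q.1) := hy.comp (Poly.fst Poly.id)
  exact Poly.decide_le (Poly.mod (Poly.snd Poly.id) (Poly.add h1 (Poly.const 1)))
    (poly_wtL (poly_blkL h1 h2 (Poly.snd Poly.id)))

theorem poly_s0L {n : α → ℕ} {y : α → List Bool} (e : ℕ) (hn : UPoly n) (hy : Poly y) :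
    Poly (fun a => s0L e (n a) (y a)) := by
  have hn' := hn.toPoly
  refine poly_countP (p := fun a i => decide (i % (n a + 1) < wtL (blkL (n a) (y a) i)))
    (uPoly_rr e hn).range ?_
  have h1 : Poly (fun q : α × ℕ => n q.1) := hn'.comp (Poly.fst Poly.id)
  have h2 : Poly (fun q : α × ℕ => y q.1) := hy.comp (Poly.fst Poly.id)
  exact Poly.decide_lt (Poly.mod (Poly.snd Poly.id) (Poly.add h1 (Poly.const 1)))
    (poly_wtL (poly_blkL h1 h2 (Poly.snd Poly.id)))

theorem poly_passL {n : α → ℕ} {y : α → List Bool} (e : ℕ) (hn : UPoly n) (hy : Poly y) :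
    Poly (fun a => passL e (n a) (y a)) := by
  have hn' := hn.toPoly
  unfold passL
  exact Poly.and (Poly.getD hy (Poly.const 0) (Poly.const false))
    (Poly.and (Poly.decide_le (poly_a1 e hn') (poly_s1L e hn hy))
      (Poly.and (Poly.decide_le (poly_a0 e hn') (poly_s0L e hn hy))
        (Poly.decide_lt (poly_s0L e hn hy) (poly_b0 e hn'))))

theorem poly_mbL {n : α → ℕ} {y : α → List Bool} (e : ℕ) (hn : UPoly n) (hy : Poly y) :
    Poly (fun a => mbL e (n a) (y a)) := by
  have hn' := hn.toPoly
  have h1 : Poly (fun q : α × ℕ => n q.1) := hn'.comp (Poly.fst Poly.id)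
  have h2 : Poly (fun q : α × ℕ => y q.1) := hy.comp (Poly.fst Poly.id)
  exact Poly.map (F := fun a i => blkL (n a) (y a) i)
    (Poly.filter (p := fun a i => decide (wtL (blkL (n a) (y a) i) = i % (n a + 1)))
      (uPoly_rr e hn).range
      (Poly.decide_eq (poly_wtL (poly_blkL h1 h2 (Poly.snd Poly.id)))
        (Poly.mod (Poly.snd Poly.id) (Poly.add h1 (Poly.const 1)))))
    (poly_blkL h1 h2 (Poly.snd Poly.id))

theorem poly_dL {n : α → ℕ} {ys : α → List (List Bool)} (e : ℕ) (hn : UPoly n) (hy : Poly ys) :
    Poly (fun a => dL e (n a) (ys a)) := by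
  have h1 : UPoly (fun q : α × List Bool => n q.1) := hn.comp (Poly.fst Poly.id)
  refine Poly.flatMap
    (F := fun a y => if passL e (n a) y = true then (mbL e (n a) y).take (kk e (n a)) else [])
    hy ?_
  refine Poly.ite (p := fun q : α × List Bool => passL e (n q.1) q.2 = true)
    (Poly.decide_bool (poly_passL e h1 (Poly.snd Poly.id)))
    (poly_take (poly_mbL e h1 (Poly.snd Poly.id)) (poly_kk e h1.toPoly)) (Poly.const [])

end main

theorem t_L1P : S_L1P := by
  intro e c a d G hd hG
  apply PTime.of_poly
  have hd' := hd.toPoly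
  have hG' := hG.toPoly
  have hn : UPoly (fun p : List Bool × List Bool => p.1.length) := UPoly.length (Poly.fst Poly.id)
  set M : List Bool × List Bool → ℕ := fun p => (p.1.length + 2) ^ a with hM
  have hMu : UPoly M := uPoly_pow (UPoly.add hn (UPoly.const 2)) a
  have hMl : Poly (fun p => List.replicate (M p) false) :=
    poly_replicate hMu (Poly.const false)
  have hdM : Poly (fun p => d (M p)) :=
    (hd'.comp hMl).congr fun p => by simp
  have hcond : Poly (fun p => decide (d (M p) ≤ c * Nat.log 2 (M p))) :=
    Poly.decide_le hdM (Poly.mul (Poly.const c) (poly_log hMu.toPoly))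
  set k : List Bool × List Bool → ℕ := fun p =>
    if d (M p) ≤ c * Nat.log 2 (M p) then d (M p) else 0 with hk
  have hkp : Poly k := Poly.ite hcond hdM (Poly.const 0)
  have hB : UPoly (fun p => M p ^ c) := uPoly_pow hMu c
  have hkB : ∀ p, 2 ^ k p ≤ M p ^ c := by
    intro p
    have hM0 : M p ≠ 0 := by simp [hM]
    have h1 : 2 ^ (c * Nat.log 2 (M p)) ≤ M p ^ c := by
      rw [mul_comm, pow_mul]
      exact Nat.pow_le_pow_left (Nat.pow_log_le_self 2 hM0) c
    refine le_trans (Nat.pow_le_pow_right (by norm_num) ?_) h1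
    simp only [hk]
    split_ifs with h
    · exact h
    · exact Nat.zero_le _
  have hku : UPoly k := UPoly.of_le hkp hB fun p => (Nat.lt_two_pow_self.le).trans (hkB p)
  have hall : Poly (fun p => allS (k p)) := poly_allS hku hB hkB
  have hys : Poly (fun p => (allS (k p)).map (G (M p))) := by
    refine Poly.map (F := fun p s => G (M p) s) hall ?_
    refine (hG'.comp (f := fun q : (List Bool × List Bool) × List Bool =>
      (List.replicate (M q.1) false, q.2))
      (Poly.pair (hMl.comp (Poly.fst Poly.id)) (Poly.snd Poly.id))).congr fun q => ?_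
    simp
  have hD : Poly (fun p : List Bool × List Bool =>
      dL e p.1.length ((allS (k p)).map (G (M p)))) := poly_dL e hn hys
  have hrep : Poly (fun p : List Bool × List Bool => List.replicate p.1.length false) :=
    poly_replicate hn (Poly.const false)
  have hval : Poly (fun p : List Bool × List Bool => valB p.2) := Poly.valBits (Poly.snd Poly.id)
  have hin : Poly (fun p : List Bool × List Bool =>
      if dL e p.1.length ((allS (k p)).map (G (M p))) = [] then List.replicate p.1.length false
      else (dL e p.1.length ((allS (k p)).map (G (M p)))).getD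
        (valB p.2 % (dL e p.1.length ((allS (k p)).map (G (M p)))).length)
        (List.replicate p.1.length false)) := by
    refine Poly.ite (Poly.decide_eq hD (Poly.const [])) hrep
      (Poly.getD hD (Poly.mod hval (Poly.length hD)) hrep)
  refine (Poly.ite (p := fun p => d (M p) ≤ c * Nat.log 2 (M p)) hcond hin hrep).congr fun p => ?_
  simp only [gen1]
  by_cases h : d (M p) ≤ c * Nat.log 2 (M p)
  · have hkp : k p = d (M p) := by simp [hk, h]
    rw [if_pos h]
    have h' : d ((p.1.length + 2) ^ a) ≤ c * Nat.log 2 ((p.1.length + 2) ^ a) := h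
    rw [if_pos h', hkp]
  · rw [if_neg h]
    have h' : ¬ d ((p.1.length + 2) ^ a) ≤ c * Nat.log 2 ((p.1.length + 2) ^ a) := h
    rw [if_neg h']

end Pool.Agent.NPC.W368P
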